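import Mathlib

set_option autoImplicit false

/-!
# Counting blow-ups in a relation
-/

namespace Pool.Agent.W837.Blow

open Finset Classical

/-- power mean inequality with a bound on the number of terms -/
theorem pm {ι : Type} (s : Finset ι) (f : ι → ℕ) (N k : ℕ) (hk : 1 ≤ k) (hs : s.card ≤ N) :
    (∑ i ∈ s, f i) ^ k ≤ N ^ (k - 1) * ∑ i ∈ s, f i ^ k := by
  obtain ⟨k, rfl⟩ := Nat.exists_eq_add_of_le' hk
  refine (pow_sum_le_card_mul_sum_pow (s := s) (f := f) (fun i _ => Nat.zero_le _) k).trans ?_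
  rw [Nat.add_sub_cancel]
  exact Nat.mul_le_mul_right _ (Nat.pow_le_pow_left (by simpa using hs) _)

variable {V : Type} [Fintype V]

/-- the `t`-fold blow-ups of a relation -/
noncomputable def Bl (t : ℕ) {m : ℕ} (R : Finset (Fin m → V)) : Finset (Fin m → Fin t → V) :=
  univ.filter (fun φ => ∀ c : Fin m → Fin t, (fun i => φ i (c i)) ∈ R)

theorem mem_Bl {t m : ℕ} {R : Finset (Fin m → V)} {φ : Fin m → Fin t → V} :
    φ ∈ Bl t R ↔ ∀ c : Fin m → Fin t, (fun i => φ i (c i)) ∈ R := by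
  simp [Bl]

/-- the fibre over the first coordinate -/
noncomputable def Rx {t m : ℕ} (R : Finset (Fin (m + 1) → V)) (x : Fin t → V) :
    Finset (Fin m → V) :=
  univ.filter (fun y => ∀ a, (Fin.cons (x a) y : Fin (m + 1) → V) ∈ R)

/-- the fibre over the last coordinates -/
noncomputable def Ry {m : ℕ} (R : Finset (Fin (m + 1) → V)) (y : Fin m → V) : Finset V :=
  univ.filter (fun v => (Fin.cons v y : Fin (m + 1) → V) ∈ R)

theorem card_eq_sum_Ry {m : ℕ} (R : Finset (Fin (m + 1) → V)) (A : Finset V)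
    (hA : ∀ x ∈ R, ∀ i, x i ∈ A) :
    R.card = ∑ y ∈ Fintype.piFinset (fun _ : Fin m => A), (Ry R y).card := by
  rw [← Finset.card_sigma]
  refine Finset.card_bij' (fun x _ => ⟨Fin.tail x, x 0⟩) (fun p _ => Fin.cons p.2 p.1) ?_ ?_ ?_ ?_
  · intro x hx
    rw [Finset.mem_sigma, Fintype.mem_piFinset]
    refine ⟨fun i => hA x hx _, ?_⟩
    rw [Ry, Finset.mem_filter]
    refine ⟨Finset.mem_univ _, ?_⟩
    simpa [Fin.cons_self_tail] using hx
  · intro p hp
    rw [Finset.mem_sigma] at hp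
    exact (Finset.mem_filter.1 hp.2).2
  · intro x _
    simp [Fin.cons_self_tail]
  · intro p _
    simp [Fin.tail_cons]

theorem card_Bl {t m : ℕ} (R : Finset (Fin (m + 1) → V)) :
    (Bl t R).card = ∑ x : Fin t → V, (Bl t (Rx R x)).card := by
  rw [← Finset.card_sigma]
  refine Finset.card_bij' (fun φ _ => ⟨φ 0, Fin.tail φ⟩) (fun p _ => Fin.cons p.1 p.2) ?_ ?_ ?_ ?_
  · intro φ hφ
    rw [mem_Bl] at hφ
    rw [Finset.mem_sigma, mem_Bl]
    refine ⟨Finset.mem_univ _, fun c => ?_⟩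
    rw [Rx, Finset.mem_filter]
    refine ⟨Finset.mem_univ _, fun a => ?_⟩
    convert hφ (Fin.cons a c) using 1
    funext i
    refine Fin.cases ?_ (fun j => ?_) i
    · simp
    · simp [Fin.tail]
  · rintro ⟨x, ψ⟩ hp
    rw [Finset.mem_sigma, mem_Bl] at hp
    rw [mem_Bl]
    intro c
    have h := (Finset.mem_filter.1 (hp.2 (Fin.tail c))).2 (c 0)
    convert h using 1
    funext i
    refine Fin.cases ?_ (fun j => ?_) i
    · simp
    · simp [Fin.tail]
  · intro φ _
    simp
  · rintro ⟨x, ψ⟩ _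
    simp

/-- double counting for the fibres -/
theorem sum_Rx {t m : ℕ} (R : Finset (Fin (m + 1) → V)) (A : Finset V)
    (hA : ∀ x ∈ R, ∀ i, x i ∈ A) :
    ∑ y ∈ Fintype.piFinset (fun _ : Fin m => A), (Ry R y).card ^ t ≤
      ∑ x ∈ Fintype.piFinset (fun _ : Fin t => A), (Rx R x).card := by
  have h1 : ∀ y : Fin m → V, (Ry R y).card ^ t =
      (Fintype.piFinset (fun _ : Fin t => Ry R y)).card := by
    intro y
    rw [Fintype.card_piFinset_const]
  simp only [h1]
  rw [← Finset.card_sigma, ← Finset.card_sigma]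
  refine Finset.card_le_card_of_injOn (fun p => ⟨p.2, p.1⟩) ?_ ?_
  · rintro ⟨y, x⟩ hp
    rw [Finset.mem_coe, Finset.mem_sigma, Fintype.mem_piFinset, Fintype.mem_piFinset] at hp
    simp only at hp
    have hx : ∀ a, (Fin.cons (x a) y : Fin (m + 1) → V) ∈ R := fun a =>
      (Finset.mem_filter.1 (hp.2 a)).2
    rw [Finset.mem_coe, Finset.mem_sigma, Fintype.mem_piFinset]
    refine ⟨fun a => ?_, ?_⟩
    · have := hA _ (hx a) 0
      simpa using this
    · exact Finset.mem_filter.2 ⟨Finset.mem_univ _, hx⟩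
  · rintro ⟨y, x⟩ _ ⟨y', x'⟩ _ h
    simp only [Sigma.mk.injEq, heq_eq_eq] at h
    rw [h.1, h.2]

/-- **Counting blow-ups**: a relation of density `α` on a set of `n` elements has at least
`α ^ (t ^ m) * n ^ (m t)` blow-ups. -/
theorem blow (A : Finset V) (n t : ℕ) (hA : A.card ≤ n) (ht : 1 ≤ t) :
    ∀ (m : ℕ) (R : Finset (Fin m → V)), (∀ x ∈ R, ∀ i, x i ∈ A) →
      R.card ^ (t ^ m) * n ^ (m * t) ≤ (Bl t R).card * n ^ (m * t ^ m) := by
  intro m
  induction m with
  | zero =>
    intro R _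
    rcases R.eq_empty_or_nonempty with hR | ⟨z, hz⟩
    · subst hR; simp
    · have h1 : R = univ := by
        ext y
        simp only [Finset.mem_univ, iff_true]
        rwa [Subsingleton.elim y z]
      have h2 : Bl t R = univ := by
        ext y
        simp only [mem_Bl, h1, Finset.mem_univ, implies_true]
      rw [h1]
      rw [h1] at h2
      rw [h2]
      simp
  | succ m ih =>
    intro R hR
    have ht' : 1 ≤ t ^ m := Nat.one_le_pow _ _ ht
    have ihx : ∀ x : Fin t → V,
        (Rx R x).card ^ (t ^ m) * n ^ (m * t) ≤ (Bl t (Rx R x)).card * n ^ (m * t ^ m) := by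
      intro x
      refine ih (Rx R x) ?_
      intro y hy i
      have := hR _ ((Finset.mem_filter.1 hy).2 ⟨0, ht⟩) (Fin.succ i)
      simpa using this
    have s1 : R.card ^ t ≤ (n ^ m) ^ (t - 1) *
        ∑ x ∈ Fintype.piFinset (fun _ : Fin t => A), (Rx R x).card := by
      rw [card_eq_sum_Ry R A hR]
      refine (pm _ _ (n ^ m) t ht ?_).trans ?_
      · rw [Fintype.card_piFinset_const]
        exact Nat.pow_le_pow_left hA _
      · exact Nat.mul_le_mul_left _ (sum_Rx R A hR)
    have s2 : (∑ x ∈ Fintype.piFinset (fun _ : Fin t => A), (Rx R x).card) ^ (t ^ m) ≤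
        (n ^ t) ^ (t ^ m - 1) *
          ∑ x ∈ Fintype.piFinset (fun _ : Fin t => A), (Rx R x).card ^ (t ^ m) := by
      refine pm _ _ (n ^ t) (t ^ m) ht' ?_
      rw [Fintype.card_piFinset_const]
      exact Nat.pow_le_pow_left hA _
    have s3 : (∑ x ∈ Fintype.piFinset (fun _ : Fin t => A), (Rx R x).card ^ (t ^ m)) *
        n ^ (m * t) ≤ (Bl t R).card * n ^ (m * t ^ m) := by
      rw [card_Bl, Finset.sum_mul, Finset.sum_mul]
      refine (Finset.sum_le_sum (fun x _ => ihx x)).trans ?_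
      exact Finset.sum_le_sum_of_subset (Finset.subset_univ _)
    set P := ∑ x ∈ Fintype.piFinset (fun _ : Fin t => A), (Rx R x).card with hP
    set Q := ∑ x ∈ Fintype.piFinset (fun _ : Fin t => A), (Rx R x).card ^ (t ^ m) with hQ
    obtain ⟨k, hk⟩ := Nat.exists_eq_add_of_le' ht
    obtain ⟨q, hq⟩ := Nat.exists_eq_add_of_le' ht'
    have e1 : t - 1 = k := by omega
    have e2 : t ^ m - 1 = q := by omega
    rw [e1] at s1
    rw [e2] at s2
    calc R.card ^ (t ^ (m + 1)) * n ^ ((m + 1) * t)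
        = (R.card ^ t) ^ (t ^ m) * n ^ ((m + 1) * t) := by
          rw [← pow_mul, pow_succ, mul_comm (t ^ m) t]
      _ ≤ ((n ^ m) ^ k * P) ^ (t ^ m) * n ^ ((m + 1) * t) :=
          Nat.mul_le_mul_right _ (Nat.pow_le_pow_left s1 _)
      _ = (n ^ m) ^ (k * t ^ m) * P ^ (t ^ m) * n ^ ((m + 1) * t) := by
          rw [mul_pow, ← pow_mul]
      _ ≤ (n ^ m) ^ (k * t ^ m) * ((n ^ t) ^ q * Q) * n ^ ((m + 1) * t) :=
          Nat.mul_le_mul_right _ (Nat.mul_le_mul_left _ s2)
      _ = (n ^ (m * (k * t ^ m) + t * q + t)) * (Q * n ^ (m * t)) := by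
          rw [← pow_mul, ← pow_mul]
          ring
      _ ≤ (n ^ (m * (k * t ^ m) + t * q + t)) * ((Bl t R).card * n ^ (m * t ^ m)) :=
          Nat.mul_le_mul_left _ s3
      _ = (Bl t R).card * n ^ (m * (k * t ^ m) + t * q + t + m * t ^ m) := by
          ring
      _ = (Bl t R).card * n ^ ((m + 1) * t ^ (m + 1)) := by
          congr 2
          have : t * q + t = t * t ^ m := by rw [hq]; ring
          calc m * (k * t ^ m) + t * q + t + m * t ^ m
              = m * ((k + 1) * t ^ m) + (t * q + t) := by ring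
            _ = m * (t * t ^ m) + t * t ^ m := by rw [this, ← hk]
            _ = (m + 1) * t ^ (m + 1) := by ring

end Pool.Agent.W837.Blow
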