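import Mathlib
import Pool.Agent.W837.Blow.Count

set_option autoImplicit false

/-!
# Heavy cliques and blow-ups
-/

namespace Pool.Agent.W837.Blow

open Finset Classical

variable {V : Type} [Fintype V]

/-- the neighbours of a vertex -/
noncomputable def Nb (G : SimpleGraph V) (v : V) : Finset V := univ.filter (fun w => G.Adj v w)

theorem mem_Nb {G : SimpleGraph V} {v w : V} : w ∈ Nb G v ↔ G.Adj v w := by simp [Nb]

/-- heavy sets: cliques with `r` elements at level `0`; at the next level the sets that have many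
extensions to a heavy set of the previous level -/
noncomputable def Hv (G : SimpleGraph V) (L : ℕ → ℝ) (r : ℕ) : ℕ → Finset V → Prop
  | 0, S => G.IsNClique r S
  | j + 1, S => L j ≤ ((univ.filter (fun w => w ∉ S ∧ Hv G L r j (insert w S))).card : ℝ)

theorem Hv_clique (G : SimpleGraph V) (L : ℕ → ℝ) (r : ℕ) (hL : ∀ j, 0 < L j) :
    ∀ (j : ℕ) (S : Finset V), Hv G L r j S → S.card + j = r ∧ G.IsClique (S : Set V) := by
  intro j
  induction j with
  | zero =>
    intro S hS
    have h : G.IsNClique r S := hS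
    exact ⟨by simpa using h.card_eq, h.isClique⟩
  | succ j ih =>
    intro S hS
    have h : L j ≤ ((univ.filter (fun w => w ∉ S ∧ Hv G L r j (insert w S))).card : ℝ) := hS
    have h1 : (0 : ℝ) < ((univ.filter (fun w => w ∉ S ∧ Hv G L r j (insert w S))).card : ℝ) :=
      lt_of_lt_of_le (hL j) h
    have h2 : 0 < (univ.filter (fun w => w ∉ S ∧ Hv G L r j (insert w S))).card := by
      exact_mod_cast h1
    obtain ⟨w, hw⟩ := Finset.card_pos.1 h2
    obtain ⟨-, hw1, hw2⟩ := Finset.mem_filter.1 hw
    obtain ⟨h3, h4⟩ := ih _ hw2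
    rw [Finset.card_insert_of_notMem hw1] at h3
    refine ⟨by omega, h4.subset ?_⟩
    rw [Finset.coe_insert]
    exact Set.subset_insert _ _

/-- the number of completions of a heavy set to a clique -/
theorem Hv_count (G : SimpleGraph V) (L : ℕ → ℝ) (r : ℕ) (hL : ∀ j, 0 < L j) :
    ∀ (j : ℕ) (S : Finset V), Hv G L r j S → ∏ i ∈ range j, L i ≤
      ((univ.filter (fun y : Fin j → V => G.IsNClique r (S ∪ univ.image y))).card : ℝ) := by
  intro j
  induction j with
  | zero =>
    intro S hS
    have h : G.IsNClique r S := hS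
    have h1 : (univ.filter (fun y : Fin 0 → V => G.IsNClique r (S ∪ univ.image y))) = univ := by
      apply Finset.filter_true_of_mem
      intro y _
      simpa using h
    rw [h1]
    simp
  | succ j ih =>
    intro S hS
    have h : L j ≤ ((univ.filter (fun w => w ∉ S ∧ Hv G L r j (insert w S))).card : ℝ) := hS
    have h2 : ((univ.filter (fun w => w ∉ S ∧ Hv G L r j (insert w S))).card : ℝ) *
        ∏ i ∈ range j, L i ≤ ∑ w ∈ univ.filter (fun w => w ∉ S ∧ Hv G L r j (insert w S)),
          ((univ.filter (fun y : Fin j → V => G.IsNClique r (insert w S ∪ univ.image y))).card :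
            ℝ) := by
      rw [← nsmul_eq_mul, ← Finset.sum_const]
      exact Finset.sum_le_sum (fun w hw => ih _ (Finset.mem_filter.1 hw).2.2)
    have h3 : (∑ w ∈ univ.filter (fun w => w ∉ S ∧ Hv G L r j (insert w S)),
          ((univ.filter (fun y : Fin j → V => G.IsNClique r (insert w S ∪ univ.image y))).card)) ≤
        (univ.filter (fun y : Fin (j + 1) → V => G.IsNClique r (S ∪ univ.image y))).card := by
      rw [← Finset.card_sigma]
      refine Finset.card_le_card_of_injOn (fun p => Fin.cons p.1 p.2) ?_ ?_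
      · rintro ⟨w, y⟩ hp
        rw [Finset.mem_coe, Finset.mem_sigma, Finset.mem_filter, Finset.mem_filter] at hp
        obtain ⟨-, -, hp⟩ := hp
        rw [Finset.mem_coe, Finset.mem_filter]
        refine ⟨Finset.mem_univ _, ?_⟩
        convert hp using 1
        ext z
        simp only [Finset.mem_union, Finset.mem_image, Finset.mem_univ, true_and,
          Finset.mem_insert]
        constructor
        · rintro (hz | ⟨i, hi⟩)
          · exact Or.inl (Or.inr hz)
          · revert hi
            refine Fin.cases ?_ (fun i => ?_) i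
            · intro hi
              left; left
              simpa using hi.symm
            · intro hi
              right
              exact ⟨i, by simpa using hi⟩
        · rintro ((rfl | hz) | ⟨i, hi⟩)
          · exact Or.inr ⟨0, by simp⟩
          · exact Or.inl hz
          · exact Or.inr ⟨i.succ, by simpa using hi⟩
      · rintro ⟨w, y⟩ _ ⟨w', y'⟩ _ h
        have h1 := Fin.cons_injective2 h
        obtain ⟨h1, h2⟩ := h1
        subst h1 h2
        rfl
    have h0 : 0 ≤ ∏ i ∈ range j, L i := Finset.prod_nonneg (fun i _ => (hL i).le)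
    calc ∏ i ∈ range (j + 1), L i = L j * ∏ i ∈ range j, L i := by
          rw [Finset.prod_range_succ, mul_comm]
      _ ≤ ((univ.filter (fun w => w ∉ S ∧ Hv G L r j (insert w S))).card : ℝ) *
          ∏ i ∈ range j, L i := mul_le_mul_of_nonneg_right h h0
      _ ≤ _ := h2
      _ ≤ _ := by exact_mod_cast h3

/-- the tuples that complete `u` to a clique, the first entry in `X` -/
noncomputable def Ru (G : SimpleGraph V) (k : ℕ) (X : Finset V) (u : V) :
    Finset (Fin (k + 1) → V) :=
  univ.filter (fun x => x 0 ∈ X ∧ G.IsNClique (k + 2) ({u} ∪ univ.image x))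

theorem Ru_adj {G : SimpleGraph V} {k : ℕ} {X : Finset V} {u : V} {x : Fin (k + 1) → V}
    (hx : x ∈ Ru G k X u) : (∀ i, G.Adj u (x i)) ∧ ∀ i j, i ≠ j → G.Adj (x i) (x j) := by
  obtain ⟨-, hx0, hx⟩ := Finset.mem_filter.1 hx
  have h1 := hx.card_eq
  have h2 : (univ.image x).card ≤ k + 1 := by
    refine Finset.card_image_le.trans ?_
    simp
  have h3 := Finset.card_union_le {u} (univ.image x)
  rw [Finset.card_singleton] at h3
  have h4 : (univ.image x).card = k + 1 := by omega
  have h5 : Function.Injective x := by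
    have h6 : (univ.image x).card = (univ : Finset (Fin (k + 1))).card := by
      rw [h4]; simp
    have h7 := Finset.card_image_iff.1 h6
    simpa using h7
  have h6 : u ∉ univ.image x := by
    intro hu
    have h7 : {u} ∪ univ.image x = univ.image x := by
      apply Finset.union_eq_right.2
      simpa using hu
    rw [h7] at h1
    omega
  have hcl := hx.isClique
  constructor
  · intro i
    refine hcl (by simp) (by simp) ?_
    rintro rfl
    exact h6 (by simp)
  · intro i j hij
    exact hcl (by simp) (by simp) (fun h => hij (h5 h))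

theorem Ru_count (G : SimpleGraph V) (L : ℕ → ℝ) (k : ℕ) (hL : ∀ j, 0 < L j) (X : Finset V)
    (u : V) (hu : L k ≤ ((X.filter (fun w => w ≠ u ∧ Hv G L (k + 2) k {w, u})).card : ℝ)) :
    ∏ i ∈ range (k + 1), L i ≤ ((Ru G k X u).card : ℝ) := by
  have h2 : ((X.filter (fun w => w ≠ u ∧ Hv G L (k + 2) k {w, u})).card : ℝ) *
      ∏ i ∈ range k, L i ≤ ∑ w ∈ X.filter (fun w => w ≠ u ∧ Hv G L (k + 2) k {w, u}),
        ((univ.filter (fun y : Fin k → V => G.IsNClique (k + 2) ({w, u} ∪ univ.image y))).card :
          ℝ) := by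
    rw [← nsmul_eq_mul, ← Finset.sum_const]
    exact Finset.sum_le_sum (fun w hw => Hv_count G L _ hL _ _ (Finset.mem_filter.1 hw).2.2)
  have h3 : (∑ w ∈ X.filter (fun w => w ≠ u ∧ Hv G L (k + 2) k {w, u}),
        ((univ.filter (fun y : Fin k → V =>
          G.IsNClique (k + 2) ({w, u} ∪ univ.image y))).card)) ≤ (Ru G k X u).card := by
    rw [← Finset.card_sigma]
    refine Finset.card_le_card_of_injOn (fun p => Fin.cons p.1 p.2) ?_ ?_
    · rintro ⟨w, y⟩ hp
      rw [Finset.mem_coe, Finset.mem_sigma, Finset.mem_filter, Finset.mem_filter] at hp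
      obtain ⟨⟨hwX, -⟩, -, hp⟩ := hp
      rw [Finset.mem_coe, Ru, Finset.mem_filter]
      refine ⟨Finset.mem_univ _, by simpa using hwX, ?_⟩
      convert hp using 1
      ext z
      simp only [Finset.mem_union, Finset.mem_image, Finset.mem_univ, true_and,
        Finset.mem_insert, Finset.mem_singleton]
      constructor
      · rintro (hz | ⟨i, hi⟩)
        · exact Or.inl (Or.inr hz)
        · revert hi
          refine Fin.cases ?_ (fun i => ?_) i
          · intro hi
            left; left
            simpa using hi.symm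
          · intro hi
            right
            exact ⟨i, by simpa using hi⟩
      · rintro ((rfl | hz) | ⟨i, hi⟩)
        · exact Or.inr ⟨0, by simp⟩
        · exact Or.inl hz
        · exact Or.inr ⟨i.succ, by simpa using hi⟩
    · rintro ⟨w, y⟩ _ ⟨w', y'⟩ _ h
      have h1 := Fin.cons_injective2 h
      obtain ⟨h1, h2⟩ := h1
      subst h1 h2
      rfl
  have h0 : 0 ≤ ∏ i ∈ range k, L i := Finset.prod_nonneg (fun i _ => (hL i).le)
  calc ∏ i ∈ range (k + 1), L i = L k * ∏ i ∈ range k, L i := by
        rw [Finset.prod_range_succ, mul_comm]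
    _ ≤ ((X.filter (fun w => w ≠ u ∧ Hv G L (k + 2) k {w, u})).card : ℝ) *
        ∏ i ∈ range k, L i := mul_le_mul_of_nonneg_right hu h0
    _ ≤ _ := h2
    _ ≤ _ := by exact_mod_cast h3

/-- few blow-ups have two equal entries in some class -/
theorem degenerate (k t D : ℕ) (A : Finset V) (hA : A.card ≤ D) (R : Finset (Fin (k + 1) → V))
    (hR : ∀ x ∈ R, ∀ i, x i ∈ A) :
    ((Bl t R).filter (fun φ => ¬ ∀ i, Function.Injective (φ i))).card ≤
      ((k + 1) * t ^ 2) * D ^ ((k + 1) * t - 1) := by
  have hmem : ∀ φ ∈ Bl t R, ∀ i a, φ i a ∈ A := by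
    intro φ hφ i a
    exact hR _ (mem_Bl.1 hφ (fun _ => a)) i
  set I : Finset (Fin (k + 1) × Fin t × Fin t) := univ.filter (fun p => p.2.1 ≠ p.2.2) with hI
  have h1 : ((Bl t R).filter (fun φ => ¬ ∀ i, Function.Injective (φ i))) ⊆
      I.biUnion (fun p => (Bl t R).filter (fun φ => φ p.1 p.2.1 = φ p.1 p.2.2)) := by
    intro φ hφ
    rw [Finset.mem_filter] at hφ
    obtain ⟨hφ1, hφ2⟩ := hφ
    push Not at hφ2
    obtain ⟨i, hi⟩ := hφ2
    rw [Function.Injective] at hi
    push Not at hi
    obtain ⟨a, b, hab, hne⟩ := hi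
    rw [Finset.mem_biUnion]
    exact ⟨(i, a, b), by rw [hI]; simp [hne], Finset.mem_filter.2 ⟨hφ1, hab⟩⟩
  refine (Finset.card_le_card h1).trans (Finset.card_biUnion_le.trans ?_)
  have h2 : ∀ p ∈ I, ((Bl t R).filter (fun φ => φ p.1 p.2.1 = φ p.1 p.2.2)).card ≤
      D ^ ((k + 1) * t - 1) := by
    rintro ⟨i, a, b⟩ hp
    have hab : a ≠ b := by
      rw [hI] at hp
      simpa using hp
    have h3 : (Fintype.piFinset (fun _ : {q : Fin (k + 1) × Fin t // q ≠ (i, b)} => A)).card ≤
        D ^ ((k + 1) * t - 1) := by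
      rw [Fintype.card_piFinset, Finset.prod_const, Finset.card_univ,
        Fintype.card_subtype_compl]
      simp only [Fintype.card_prod, Fintype.card_fin, Fintype.card_unique]
      exact Nat.pow_le_pow_left hA _
    refine le_trans (Finset.card_le_card_of_injOn
      (fun φ => fun q : {q : Fin (k + 1) × Fin t // q ≠ (i, b)} => φ q.1.1 q.1.2) ?_ ?_) h3
    · intro φ hφ
      rw [Finset.mem_coe, Finset.mem_filter] at hφ
      rw [Finset.mem_coe, Fintype.mem_piFinset]
      exact fun q => hmem φ hφ.1 _ _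
    · intro φ hφ φ' hφ' h
      rw [Finset.mem_coe, Finset.mem_filter] at hφ hφ'
      simp only at h
      have h4 : ∀ q : Fin (k + 1) × Fin t, q ≠ (i, b) → φ q.1 q.2 = φ' q.1 q.2 := by
        intro q hq
        exact congrFun h ⟨q, hq⟩
      funext i' a'
      by_cases hq : (i', a') = (i, b)
      · obtain ⟨rfl, rfl⟩ := Prod.mk.inj hq
        have h5 := h4 (i', a) (by simp [hab])
        have h6 := hφ.2
        have h7 := hφ'.2
        simp only at h5 h6 h7
        rw [← h6, ← h7, h5]
      · exact h4 (i', a') hq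
  refine (Finset.sum_le_sum h2).trans ?_
  rw [Finset.sum_const, smul_eq_mul]
  refine Nat.mul_le_mul_right _ ?_
  refine (Finset.card_le_univ _).trans ?_
  simp only [Fintype.card_prod, Fintype.card_fin]
  rw [pow_two]

/-- the number of blow-ups starting in `X` -/
theorem total (G : SimpleGraph V) (k t D : ℕ) (hD : 1 ≤ D)
    (hdeg : ∀ v, (Nb G v).card ≤ D) (X : Finset V) (i0 i1 : Fin (k + 1)) (h01 : i0 ≠ i1)
    (a0 : Fin t) (T : Finset (Fin (k + 1) → Fin t → V))
    (hT1 : ∀ φ ∈ T, φ i0 a0 ∈ X)
    (hT2 : ∀ φ ∈ T, ∀ i j a b, i ≠ j → G.Adj (φ i a) (φ j b)) :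
    T.card ≤ X.card * D ^ ((k + 1) * t - 1) := by
  -- an injective code for the neighbours of each vertex
  have hcode : ∀ v, ∃ e : V → Fin D, ∀ x ∈ Nb G v, ∀ y ∈ Nb G v, e x = e y → x = y := by
    intro v
    obtain ⟨e⟩ : Nonempty ((Nb G v : Finset V) ↪ Fin D) := by
      rw [Function.Embedding.nonempty_iff_card_le]
      simpa using hdeg v
    refine ⟨fun x => if hx : x ∈ Nb G v then e ⟨x, hx⟩ else ⟨0, hD⟩, ?_⟩
    intro x hx y hy hxy
    simp only [hx, hy, dif_pos] at hxy
    simpa using e.injective hxy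
  choose e he using hcode
  have h3 : (X ×ˢ (univ : Finset ({q : Fin (k + 1) × Fin t // q ≠ (i0, a0)} → Fin D))).card =
      X.card * D ^ ((k + 1) * t - 1) := by
    rw [Finset.card_product, Finset.card_univ, Fintype.card_fun, Fintype.card_subtype_compl]
    simp only [Fintype.card_prod, Fintype.card_fin, Fintype.card_unique]
  rw [← h3]
  refine Finset.card_le_card_of_injOn (fun φ => (φ i0 a0,
    fun q => if q.1.1 = i0 then e (φ i1 a0) (φ q.1.1 q.1.2) else e (φ i0 a0) (φ q.1.1 q.1.2)))
    ?_ ?_
  · intro φ hφ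
    rw [Finset.mem_coe, Finset.mem_product]
    exact ⟨hT1 φ hφ, Finset.mem_univ _⟩
  · intro φ hφ φ' hφ' h
    rw [Finset.mem_coe] at hφ hφ'
    simp only [Prod.mk.injEq] at h
    obtain ⟨h0, h1⟩ := h
    have h2 : ∀ q : Fin (k + 1) × Fin t, q ≠ (i0, a0) →
        (if q.1 = i0 then e (φ i1 a0) (φ q.1 q.2) else e (φ i0 a0) (φ q.1 q.2)) =
        (if q.1 = i0 then e (φ' i1 a0) (φ' q.1 q.2) else e (φ' i0 a0) (φ' q.1 q.2)) := by
      intro q hq
      exact congrFun h1 ⟨q, hq⟩
    have h4 : ∀ i a, i ≠ i0 → φ i a = φ' i a := by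
      intro i a hi
      have h5 := h2 (i, a) (by simp [hi])
      simp only [hi, if_false] at h5
      rw [h0] at h5
      refine he (φ' i0 a0) _ ?_ _ ?_ h5
      · rw [mem_Nb, ← h0]
        exact hT2 φ hφ i0 i a0 a (Ne.symm hi)
      · rw [mem_Nb]
        exact hT2 φ' hφ' i0 i a0 a (Ne.symm hi)
    funext i a
    by_cases hi : i = i0
    · subst hi
      by_cases ha : a = a0
      · subst ha; exact h0
      · have h5 := h2 (i, a) (by simp [ha])
        simp only [if_true] at h5
        have h6 := h4 i1 a0 (Ne.symm h01)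
        rw [h6] at h5
        refine he (φ' i1 a0) _ ?_ _ ?_ h5
        · rw [mem_Nb, ← h6]
          exact hT2 φ hφ i1 i a0 a (Ne.symm h01)
        · rw [mem_Nb]
          exact hT2 φ' hφ' i1 i a0 a (Ne.symm h01)
    · exact h4 i a hi

end Pool.Agent.W837.Blow
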