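import Mathlib
import Pool.Agent.W837.Blow.Heavy

set_option autoImplicit false

/-!
# The heavy edges have small degeneracy
-/

namespace Pool.Agent.W837.Blow

open Finset Classical

variable {V : Type} [Fintype V]

theorem Bl_adj {G : SimpleGraph V} {k t : ℕ} {X : Finset V} {u : V}
    {φ : Fin (k + 1) → Fin t → V} (hφ : φ ∈ Bl t (Ru G k X u)) :
    (∀ a, φ 0 a ∈ X) ∧ (∀ i a, G.Adj u (φ i a)) ∧
      ∀ i j a b, i ≠ j → G.Adj (φ i a) (φ j b) := by
  have h := mem_Bl.1 hφ
  refine ⟨fun a => ?_, fun i a => ?_, fun i j a b hij => ?_⟩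
  · exact (Finset.mem_filter.1 (h (fun _ => a))).2.1
  · exact (Ru_adj (h (fun _ => a))).1 i
  · have h1 := (Ru_adj (h (fun l => if l = i then a else b))).2 i j hij
    simpa [Ne.symm hij] using h1

theorem super (G : SimpleGraph V) (L : ℕ → ℝ) (hL : ∀ j, 0 < L j) (k t D N : ℕ) (hk : 1 ≤ k)
    (ht : 1 ≤ t) (hD : 1 ≤ D) (hdeg : ∀ v, (Nb G v).card ≤ D)
    (hN : ∀ φ : Fin (k + 1) → Fin t → V, (∀ i, Function.Injective (φ i)) →
      (∀ i j a b, i ≠ j → G.Adj (φ i a) (φ j b)) →
      (univ.filter (fun u => ∀ i a, G.Adj u (φ i a))).card ≤ N)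
    (hnum : ((N : ℝ) + (k + 1) * t ^ 2) * (D : ℝ) ^ ((k + 1) * t - 1) *
      (D : ℝ) ^ ((k + 1) * t ^ (k + 1)) <
      (∏ i ∈ range (k + 1), L i) ^ (t ^ (k + 1)) * (D : ℝ) ^ ((k + 1) * t))
    (X : Finset V) (hX : X.Nonempty) :
    ∃ u ∈ X, ((X.filter (fun w => w ≠ u ∧ Hv G L (k + 2) k {w, u})).card : ℝ) < L k := by
  by_contra hcon
  push Not at hcon
  have hDr : (0 : ℝ) < D := by exact_mod_cast hD
  set M : ℕ := (k + 1) * t - 1 with hM
  set B : V → Finset (Fin (k + 1) → Fin t → V) := fun u =>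
    (Bl t (Ru G k X u)).filter (fun φ => ∀ i, Function.Injective (φ i)) with hB
  have hP : 0 ≤ ∏ i ∈ range (k + 1), L i := Finset.prod_nonneg (fun i _ => (hL i).le)
  have h1 : ∀ u ∈ X, N * D ^ M < (B u).card := by
    intro u hu
    have hRu : ∀ x ∈ Ru G k X u, ∀ i, x i ∈ Nb G u := fun x hx i =>
      mem_Nb.2 ((Ru_adj hx).1 i)
    have h2 := Ru_count G L k hL X u (hcon u hu)
    have h3 := blow (Nb G u) D t (hdeg u) ht (k + 1) (Ru G k X u) hRu
    have h4 := degenerate k t D (Nb G u) (hdeg u) (Ru G k X u) hRu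
    have h5 : ((Ru G k X u).card : ℝ) ^ (t ^ (k + 1)) * (D : ℝ) ^ ((k + 1) * t) ≤
        ((Bl t (Ru G k X u)).card : ℝ) * (D : ℝ) ^ ((k + 1) * t ^ (k + 1)) := by
      exact_mod_cast h3
    have h6 : (∏ i ∈ range (k + 1), L i) ^ (t ^ (k + 1)) * (D : ℝ) ^ ((k + 1) * t) ≤
        ((Ru G k X u).card : ℝ) ^ (t ^ (k + 1)) * (D : ℝ) ^ ((k + 1) * t) :=
      mul_le_mul_of_nonneg_right (pow_le_pow_left₀ hP h2 _) (by positivity)
    have h7 := lt_of_lt_of_le hnum (h6.trans h5)
    have h8 : ((N : ℝ) + (k + 1) * t ^ 2) * (D : ℝ) ^ M < ((Bl t (Ru G k X u)).card : ℝ) :=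
      lt_of_mul_lt_mul_right h7 (by positivity)
    have h9 : (N + (k + 1) * t ^ 2) * D ^ M < (Bl t (Ru G k X u)).card := by exact_mod_cast h8
    have h10 := Finset.card_filter_add_card_filter_not (s := Bl t (Ru G k X u))
      (fun φ => ∀ i, Function.Injective (φ i))
    have h11 : (B u).card + ((Bl t (Ru G k X u)).filter
        (fun φ => ¬ ∀ i, Function.Injective (φ i))).card = (Bl t (Ru G k X u)).card := h10
    have h12 : (N + (k + 1) * t ^ 2) * D ^ M = N * D ^ M + (k + 1) * t ^ 2 * D ^ M := by ring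
    rw [← hM] at h4
    omega
  set T := X.biUnion B with hT
  have hT3 : T.card ≤ X.card * D ^ M := by
    refine total G k t D hD hdeg X 0 1 ?_ ⟨0, ht⟩ T ?_ ?_
    · intro h
      have := congrArg Fin.val h
      simp only [Fin.val_zero] at this
      rw [Fin.val_one'] at this
      rw [Nat.mod_eq_of_lt (by omega)] at this
      omega
    · intro φ hφ
      obtain ⟨u, -, hu⟩ := Finset.mem_biUnion.1 hφ
      exact (Bl_adj (Finset.mem_filter.1 hu).1).1 _
    · intro φ hφ
      obtain ⟨u, -, hu⟩ := Finset.mem_biUnion.1 hφ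
      exact (Bl_adj (Finset.mem_filter.1 hu).1).2.2
  have h2 : ∑ u ∈ X, (B u).card ≤ T.card * N := by
    have h3 : ∀ u ∈ X, (B u).card = ∑ φ ∈ T, if φ ∈ B u then 1 else 0 := by
      intro u hu
      rw [← Finset.card_filter]
      refine congrArg Finset.card (Finset.ext (fun φ => ?_))
      exact ⟨fun h => Finset.mem_filter.2 ⟨Finset.mem_biUnion.2 ⟨u, hu, h⟩, h⟩,
        fun h => (Finset.mem_filter.1 h).2⟩
    rw [Finset.sum_congr rfl h3, Finset.sum_comm]
    rw [← smul_eq_mul, ← Finset.sum_const]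
    refine Finset.sum_le_sum (fun φ hφ => ?_)
    rw [← Finset.card_filter]
    obtain ⟨u, -, hu⟩ := Finset.mem_biUnion.1 hφ
    have h4 := Finset.mem_filter.1 hu
    refine le_trans (Finset.card_le_card ?_) (hN φ h4.2 (Bl_adj h4.1).2.2)
    intro w hw
    rw [Finset.mem_filter] at hw ⊢
    exact ⟨Finset.mem_univ _, (Bl_adj (Finset.mem_filter.1 hw.2).1).2.1⟩
  have h3 : X.card * (N * D ^ M) < ∑ u ∈ X, (B u).card := by
    rw [← smul_eq_mul, ← Finset.sum_const]
    exact Finset.sum_lt_sum_of_nonempty hX h1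
  have h4 : T.card * N ≤ X.card * D ^ M * N := Nat.mul_le_mul_right _ hT3
  have h5 : X.card * D ^ M * N = X.card * (N * D ^ M) := by ring
  omega

/-- In an `F`-free graph blow-ups have few common neighbours. -/
theorem free_blow {W : Type} [Fintype W] (F : SimpleGraph W) (G : SimpleGraph V) (k t : ℕ)
    (ht : 1 ≤ t) (κ : F.Coloring (Fin (k + 2))) (i₀ : Fin (k + 2))
    (hκ : ∀ i, i ≠ i₀ → (univ.filter (fun w => κ w = i)).card ≤ t) (hfree : F.Free G)
    (φ : Fin (k + 1) → Fin t → V) (hφ : ∀ i, Function.Injective (φ i))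
    (hφ2 : ∀ i j a b, i ≠ j → G.Adj (φ i a) (φ j b)) :
    (univ.filter (fun u => ∀ i a, G.Adj u (φ i a))).card ≤ Fintype.card W := by
  by_contra hcon
  push Not at hcon
  apply hfree
  -- an injection of the vertices into the common neighbours
  obtain ⟨g⟩ : Nonempty (W ↪ (univ.filter (fun u => ∀ i a, G.Adj u (φ i a)) : Finset V)) := by
    rw [Function.Embedding.nonempty_iff_card_le, Fintype.card_coe]
    exact hcon.le
  have hg : ∀ w i a, G.Adj (g w) (φ i a) := by
    intro w
    exact (Finset.mem_filter.1 (g w).2).2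
  -- numbering of the classes
  have hrk : ∀ i, ∃ e : W → Fin t, i ≠ i₀ → ∀ x y, κ x = i → κ y = i → e x = e y → x = y := by
    intro i
    by_cases hi : i = i₀
    · exact ⟨fun _ => ⟨0, ht⟩, fun h => absurd hi h⟩
    · obtain ⟨e⟩ : Nonempty ((univ.filter (fun w => κ w = i) : Finset W) ↪ Fin t) := by
        rw [Function.Embedding.nonempty_iff_card_le, Fintype.card_coe, Fintype.card_fin]
        exact hκ i hi
      refine ⟨fun x => if hx : κ x = i then e ⟨x, by simp [hx]⟩ else ⟨0, ht⟩, fun _ => ?_⟩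
      intro x y hx hy hxy
      simp only [hx, hy, dif_pos] at hxy
      simpa using e.injective hxy
  choose e he using hrk
  have hidx : ∀ i, ∃ j : Fin (k + 1), i ≠ i₀ → i₀.succAbove j = i := by
    intro i
    by_cases hi : i = i₀
    · exact ⟨0, fun h => absurd hi h⟩
    · obtain ⟨j, hj⟩ := Fin.exists_succAbove_eq hi
      exact ⟨j, fun _ => hj⟩
  choose ix hix using hidx
  have hixinj : ∀ i j, i ≠ i₀ → j ≠ i₀ → ix i = ix j → i = j := by
    intro i j hi hj h
    rw [← hix i hi, ← hix j hj, h]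
  set f : W → V := fun w => if κ w = i₀ then (g w : V) else φ (ix (κ w)) (e (κ w) w) with hf
  have hadj : ∀ x y, F.Adj x y → G.Adj (f x) (f y) := by
    intro x y hxy
    have hne := κ.valid hxy
    simp only [hf]
    by_cases hx : κ x = i₀
    · have hy : κ y ≠ i₀ := fun h => hne (hx.trans h.symm)
      simp only [hx, hy, if_true, if_false]
      exact hg x _ _
    · by_cases hy : κ y = i₀
      · simp only [hx, hy, if_true, if_false]
        exact (hg y _ _).symm
      · simp only [hx, hy, if_false]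
        exact hφ2 _ _ _ _ (fun h => hne (hixinj _ _ hx hy h))
  have hinj : Function.Injective f := by
    intro x y hxy
    simp only [hf] at hxy
    by_cases hx : κ x = i₀
    · by_cases hy : κ y = i₀
      · simp only [hx, hy, if_true] at hxy
        exact g.injective (Subtype.ext hxy)
      · simp only [hx, hy, if_true, if_false] at hxy
        have := hg x (ix (κ y)) (e (κ y) y)
        rw [hxy] at this
        exact absurd this (G.loopless.irrefl _)
    · by_cases hy : κ y = i₀
      · simp only [hx, hy, if_true, if_false] at hxy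
        have := hg y (ix (κ x)) (e (κ x) x)
        rw [← hxy] at this
        exact absurd this (G.loopless.irrefl _)
      · simp only [hx, hy, if_false] at hxy
        by_cases hne : κ x = κ y
        · rw [hne] at hxy
          exact he (κ y) hy x y hne rfl (hφ _ hxy)
        · have := hφ2 (ix (κ x)) (ix (κ y)) (e (κ x) x) (e (κ y) y)
            (fun h => hne (hixinj _ _ hx hy h))
          rw [hxy] at this
          exact absurd this (G.loopless.irrefl _)
  exact ⟨⟨⟨f, fun {a b} h => hadj a b h⟩, hinj⟩⟩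

/-- orientation of a graph of small degeneracy -/
theorem orient {V : Type} (P : V → V → Prop) (hsymm : ∀ u w, P u w → P w u) (x : ℝ) (hx : 0 < x)
    (h : ∀ X : Finset V, X.Nonempty → ∃ u ∈ X, ((X.filter (fun w => P u w)).card : ℝ) < x) :
    ∀ (n : ℕ) (Y : Finset V), Y.card = n → ∃ O : V → Finset V, (∀ v, ((O v).card : ℝ) < x) ∧
      (∀ v, ∀ w ∈ O v, P v w) ∧ ∀ u ∈ Y, ∀ w ∈ Y, P u w → u ∈ O w ∨ w ∈ O u := by
  intro n
  induction n with
  | zero =>
    intro Y hY
    rw [Finset.card_eq_zero] at hY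
    subst hY
    exact ⟨fun _ => ∅, fun _ => by simpa using hx, by simp, by simp⟩
  | succ n ih =>
    intro Y hY
    obtain ⟨v, hv, hvx⟩ := h Y (Finset.card_pos.1 (by omega))
    obtain ⟨O, hO1, hO2, hO3⟩ := ih (Y.erase v) (by rw [Finset.card_erase_of_mem hv, hY]; rfl)
    refine ⟨Function.update O v (Y.filter (fun w => P v w)), ?_, ?_, ?_⟩
    · intro w
      by_cases hw : w = v
      · subst hw; simpa using hvx
      · rw [Function.update_of_ne hw]; exact hO1 w
    · intro w z hz
      by_cases hw : w = v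
      · subst hw
        rw [Function.update_self] at hz
        exact (Finset.mem_filter.1 hz).2
      · rw [Function.update_of_ne hw] at hz; exact hO2 w z hz
    · intro u hu w hw huw
      by_cases huv : u = v
      · subst huv
        right
        rw [Function.update_self]
        exact Finset.mem_filter.2 ⟨hw, huw⟩
      · by_cases hwv : w = v
        · subst hwv
          left
          rw [Function.update_self]
          exact Finset.mem_filter.2 ⟨hu, hsymm _ _ huw⟩
        · rw [Function.update_of_ne huv, Function.update_of_ne hwv]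
          exact hO3 u (Finset.mem_erase.2 ⟨huv, hu⟩) w (Finset.mem_erase.2 ⟨hwv, hw⟩) huw

end Pool.Agent.W837.Blow
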