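import Mathlib
import Pool.Agent.Helper311.Glue.Rand
import Pool.Agent.W837.Blow.Super

set_option autoImplicit false

/-!
# Random partitions that destroy sparse families of sets
-/

namespace Pool.Agent.W837.Blow

open Finset Pool.Agent.Helper635.LLL Pool.Agent.Helper311.Glue Classical

variable {V : Type} [Fintype V]

theorem Nb_eq (G : SimpleGraph V) [DecidableRel G.Adj] (v : V) : Nb G v = G.neighborFinset v := by
  ext w
  rw [mem_Nb, SimpleGraph.mem_neighborFinset]

/-- the probability that all of `U` gets the type of `v` -/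
theorem same_type (K : ℕ) (v : V) (U : Finset V) (hv : v ∉ U) :
    cnt (fun ω : V → Fin K => ∀ u ∈ U, ω u = ω v) * K ^ U.card ≤ Fintype.card (V → Fin K) := by
  have h1 : K ^ U.card = (univ : Finset (U → Fin K)).card := by
    rw [Finset.card_univ, Fintype.card_fun, Fintype.card_fin, Fintype.card_coe]
  rw [cnt, h1, ← Finset.card_product, ← Finset.card_univ]
  refine Finset.card_le_card_of_injOn
    (fun p => fun x => if hx : x ∈ U then p.2 ⟨x, hx⟩ else p.1 x) (fun _ _ => Finset.mem_univ _) ?_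
  rintro ⟨ω, g⟩ h ⟨ω', g'⟩ h' heq
  rw [Finset.mem_coe, Finset.mem_product, mem_ev] at h h'
  simp only at h h' heq
  have h2 : g = g' := by
    funext x
    have := congrFun heq x
    simpa [x.2] using this
  have h3 : ∀ x, x ∉ U → ω x = ω' x := by
    intro x hx
    have := congrFun heq x
    simpa [hx] using this
  have h4 : ω = ω' := by
    funext x
    by_cases hx : x ∈ U
    · rw [h.1 x hx, h'.1 x hx, h3 v hv]
    · exact h3 x hx
  rw [h2, h4]

/-- the probability that some disjoint `C` members of a family get the type of `v` -/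
theorem family_prob (K C q : ℕ) (hK : 1 ≤ K) (v : V) (𝓕 : Finset (Finset V)) (M : ℝ)
    (h1 : ∀ A ∈ 𝓕, v ∉ A ∧ A.card = q) (h2 : (𝓕.card : ℝ) ≤ M) :
    (cnt (fun ω : V → Fin K => ∃ P : Finset (Finset V), P ⊆ 𝓕 ∧ P.card = C ∧
      (P : Set (Finset V)).PairwiseDisjoint id ∧ ∀ A ∈ P, ∀ u ∈ A, ω u = ω v) : ℝ) ≤
      (M / (K : ℝ) ^ q) ^ C * Fintype.card (V → Fin K) := by
  have hKpos : (0 : ℝ) < K := by exact_mod_cast hK
  set I : Finset (Finset (Finset V)) := (powersetCard C 𝓕).filter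
    (fun P : Finset (Finset V) => (P : Set (Finset V)).PairwiseDisjoint id) with hI
  have h3 : cnt (fun ω : V → Fin K => ∃ P : Finset (Finset V), P ⊆ 𝓕 ∧ P.card = C ∧
      (P : Set (Finset V)).PairwiseDisjoint id ∧ ∀ A ∈ P, ∀ u ∈ A, ω u = ω v) ≤
      ∑ P ∈ I, cnt (fun ω : V → Fin K => ∀ u ∈ P.biUnion id, ω u = ω v) := by
    refine le_trans (Finset.card_le_card ?_) Finset.card_biUnion_le
    intro ω hω
    rw [mem_ev] at hω
    obtain ⟨P, hP1, hP2, hP3, hP4⟩ := hω
    rw [Finset.mem_biUnion]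
    refine ⟨P, ?_, ?_⟩
    · rw [hI, Finset.mem_filter, Finset.mem_powersetCard]
      exact ⟨⟨hP1, hP2⟩, hP3⟩
    · rw [mem_ev]
      intro u hu
      obtain ⟨A, hA, huA⟩ := Finset.mem_biUnion.1 hu
      exact hP4 A hA u huA
  have h4 : ∀ P ∈ I, (cnt (fun ω : V → Fin K => ∀ u ∈ P.biUnion id, ω u = ω v) : ℝ) ≤
      (1 / (K : ℝ) ^ (q * C)) * Fintype.card (V → Fin K) := by
    intro P hP
    rw [hI, Finset.mem_filter, Finset.mem_powersetCard] at hP
    obtain ⟨⟨hP1, hP2⟩, hP3⟩ := hP
    have h5 : (P.biUnion id).card = q * C := by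
      rw [Finset.card_biUnion (fun x hx y hy hxy => hP3 hx hy hxy)]
      have h50 : ∀ A ∈ P, (id A : Finset V).card = q := fun A hA => (h1 A (hP1 hA)).2
      rw [Finset.sum_congr rfl h50, Finset.sum_const, smul_eq_mul, hP2, mul_comm]
    have h6 : v ∉ P.biUnion id := by
      intro hv
      obtain ⟨A, hA, hvA⟩ := Finset.mem_biUnion.1 hv
      exact (h1 A (hP1 hA)).1 hvA
    have h7 := same_type K v _ h6
    rw [h5] at h7
    have h8 : (cnt (fun ω : V → Fin K => ∀ u ∈ P.biUnion id, ω u = ω v) : ℝ) *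
        (K : ℝ) ^ (q * C) ≤ Fintype.card (V → Fin K) := by exact_mod_cast h7
    rw [one_div, inv_mul_eq_div, le_div_iff₀ (by positivity)]
    exact h8
  have h5 : (I.card : ℝ) ≤ M ^ C := by
    have h6 : I.card ≤ 𝓕.card ^ C := by
      refine (Finset.card_filter_le _ _).trans ?_
      rw [Finset.card_powersetCard]
      exact Nat.choose_le_pow _ _
    calc (I.card : ℝ) ≤ ((𝓕.card ^ C : ℕ) : ℝ) := by exact_mod_cast h6
      _ = (𝓕.card : ℝ) ^ C := by push_cast; ring
      _ ≤ M ^ C := pow_le_pow_left₀ (by positivity) h2 _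
  have h6 : (cnt (fun ω : V → Fin K => ∃ P : Finset (Finset V), P ⊆ 𝓕 ∧ P.card = C ∧
      (P : Set (Finset V)).PairwiseDisjoint id ∧ ∀ A ∈ P, ∀ u ∈ A, ω u = ω v) : ℝ) ≤
      ∑ P ∈ I, (cnt (fun ω : V → Fin K => ∀ u ∈ P.biUnion id, ω u = ω v) : ℝ) := by
    exact_mod_cast h3
  refine h6.trans ((Finset.sum_le_sum h4).trans ?_)
  rw [Finset.sum_const, nsmul_eq_mul]
  calc (I.card : ℝ) * (1 / (K : ℝ) ^ (q * C) * Fintype.card (V → Fin K)) ≤
        M ^ C * (1 / (K : ℝ) ^ (q * C) * Fintype.card (V → Fin K)) :=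
        mul_le_mul_of_nonneg_right h5 (by positivity)
    _ = _ := by
        rw [div_pow, ← pow_mul]
        ring

/-- random types -/
theorem exists_part (G : SimpleGraph V) (K D C J : ℕ) (hK : 1 ≤ K)
    (hD : ∀ v, (Nb G v).card ≤ D) (fam : ℕ → V → Finset (Finset V)) (q : ℕ → ℕ) (M : ℕ → ℝ)
    (h1 : ∀ j < J, ∀ v, ∀ A ∈ fam j v, A ⊆ Nb G v ∧ A.card = q j)
    (h2 : ∀ j < J, ∀ v, ((fam j v).card : ℝ) ≤ M j) (p : ℝ) (hp0 : 0 ≤ p)
    (hp : ∀ j < J, (M j / (K : ℝ) ^ (q j)) ^ C ≤ p) (x : ℝ) (hx : 0 ≤ x) (hx1 : x ≤ 1)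
    (h4 : 4 * (K * Real.exp (-(x ^ 2 * D / (3 * K))) + J * p) * ((D + 1) ^ 2 : ℕ) ≤ 1) :
    ∃ t : V → ℕ, (∀ v, t v < K) ∧
      (∀ v y, ((Nb G v).filter (fun u => t u = y)).card ≤ ⌊(1 + x) * D / K⌋₊) ∧
      ∀ j < J, ∀ v, ∀ P : Finset (Finset V), P ⊆ fam j v → P.card = C →
        (P : Set (Finset V)).PairwiseDisjoint id → ∃ A ∈ P, ∃ u ∈ A, t u ≠ t v := by
  have : Nonempty (Fin K) := ⟨⟨0, hK⟩⟩
  have hcardpos : 0 < Fintype.card (V → Fin K) := Fintype.card_pos
  have hKpos : (0 : ℝ) < K := by exact_mod_cast hK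
  set w := ⌊(1 + x) * D / K⌋₊ with hw
  have hm : (1 + x) * D / K ≤ ((w + 1 : ℕ) : ℝ) := by
    push_cast; exact (Nat.lt_floor_add_one _).le
  set B1 : V → (V → Fin K) → Prop := fun v ω => ∃ y : Fin K, w + 1 ≤ ((Nb G v).filter
      (fun u => ω u = y)).card with hB1
  set B2 : V → (V → Fin K) → Prop := fun v ω => ∃ j ∈ range J, ∃ P : Finset (Finset V),
      P ⊆ fam j v ∧ P.card = C ∧
      (P : Set (Finset V)).PairwiseDisjoint id ∧ ∀ A ∈ P, ∀ u ∈ A, ω u = ω v with hB2
  set Sv : V → Finset V := fun v => insert v (Nb G v) with hSv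
  obtain ⟨ω, hω⟩ := lll (ι := V) univ (fun v (ω : V → Fin K) => B1 v ω ∨ B2 v ω) Sv
    (by
      intro v _ ω ω' hag hbad
      have hag1 : ∀ u ∈ Nb G v, ω u = ω' u := fun u hu =>
        hag u (by rw [hSv]; exact Finset.mem_insert_of_mem hu)
      have hag2 : ω v = ω' v := hag v (by rw [hSv]; exact Finset.mem_insert_self _ _)
      rcases hbad with ⟨y, hy⟩ | ⟨j, hj, P, hP1, hP2, hP3, hP4⟩
      · left
        refine ⟨y, le_trans hy (Finset.card_le_card ?_)⟩
        intro u hu
        rw [mem_filter] at hu ⊢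
        exact ⟨hu.1, by rw [← hag1 u hu.1]; exact hu.2⟩
      · right
        refine ⟨j, hj, P, hP1, hP2, hP3, fun A hA u hu => ?_⟩
        rw [← hag2, ← hag1 u ((h1 j (Finset.mem_range.1 hj) v A (hP1 hA)).1 hu)]
        exact hP4 A hA u hu)
    (K * Real.exp (-(x ^ 2 * D / (3 * K))) + J * p)
    ((D + 1) ^ 2) (by positivity)
    (by
      intro v _
      have hsub : ev (fun ω : V → Fin K => B1 v ω ∨ B2 v ω) ⊆
          ((Finset.univ : Finset (Fin K)).biUnion
            (fun y => ev (fun ω : V → Fin K => w + 1 ≤ ((Nb G v).filter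
              (fun u => ω u = y)).card))) ∪
          ((Finset.range J).biUnion
            (fun j => ev (fun ω : V → Fin K => ∃ P : Finset (Finset V), P ⊆ fam j v ∧
              P.card = C ∧ (P : Set (Finset V)).PairwiseDisjoint id ∧
                ∀ A ∈ P, ∀ u ∈ A, ω u = ω v))) := by
        intro ω hω
        rw [mem_ev] at hω
        rw [Finset.mem_union, Finset.mem_biUnion, Finset.mem_biUnion]
        rcases hω with ⟨j, hj⟩ | ⟨l, hl, hl2⟩
        · left; exact ⟨j, Finset.mem_univ _, mem_ev.mpr hj⟩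
        · right; exact ⟨l, hl, mem_ev.mpr hl2⟩
      have h1' := (Finset.card_le_card hsub).trans ((Finset.card_union_le _ _).trans
        (Nat.add_le_add Finset.card_biUnion_le Finset.card_biUnion_le))
      have h2' : (cnt (fun ω : V → Fin K => B1 v ω ∨ B2 v ω) : ℝ) ≤ (∑ y : Fin K,
          (cnt (fun ω : V → Fin K => w + 1 ≤ ((Nb G v).filter
              (fun u => ω u = y)).card) : ℝ)) + ∑ j ∈ range J,
          (cnt (fun ω : V → Fin K => ∃ P : Finset (Finset V), P ⊆ fam j v ∧
              P.card = C ∧ (P : Set (Finset V)).PairwiseDisjoint id ∧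
                ∀ A ∈ P, ∀ u ∈ A, ω u = ω v) : ℝ) := by
        exact_mod_cast h1'
      refine h2'.trans ?_
      rw [add_mul]
      refine add_le_add ?_ ?_
      · refine (Finset.sum_le_sum (fun y _ => Pool.Agent.H238R2.HY.tail K D hK
          (Nb G v) (hD v) y x hx hx1 (w + 1) hm)).trans ?_
        rw [Finset.sum_const, Finset.card_univ, Fintype.card_fin, nsmul_eq_mul]
        exact le_of_eq (by ring)
      · refine (Finset.sum_le_sum (g := fun _ => p *
          Fintype.card (V → Fin K)) (fun j hj => ?_)).trans ?_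
        · have hj' := Finset.mem_range.1 hj
          refine (family_prob K C (q j) hK v (fam j v) (M j) (fun A hA => ?_) (h2 j hj' v)).trans ?_
          · have := h1 j hj' v A hA
            refine ⟨fun hvA => ?_, this.2⟩
            exact (mem_Nb.1 (this.1 hvA)).ne rfl
          · exact mul_le_mul_of_nonneg_right (hp j hj') (by positivity)
        · rw [Finset.sum_const, Finset.card_range, nsmul_eq_mul]
          exact le_of_eq (by ring))
    (by
      intro v _
      have hnear : ∀ v, ∀ z ∈ Sv v, Near G 1 v z := by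
        intro v z hz
        rw [hSv] at hz
        rcases Finset.mem_insert.1 hz with rfl | hz
        · exact ⟨SimpleGraph.Walk.nil, by simp⟩
        · rw [mem_Nb] at hz
          exact ⟨SimpleGraph.Walk.cons hz SimpleGraph.Walk.nil, by simp⟩
      refine le_trans (Finset.card_le_card ?_) (near_card G D (fun v => by
        rw [← SimpleGraph.card_neighborFinset_eq_degree, ← Nb_eq]; exact hD v) 2 v)
      intro j hj
      rw [mem_filter, Finset.not_disjoint_iff] at hj
      obtain ⟨z, hz1, hz2⟩ := hj.2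
      rw [mem_filter]
      exact ⟨Finset.mem_univ _, (hnear v z hz1).trans (hnear j z hz2).symm⟩)
    (by exact_mod_cast h4) (Nat.one_le_pow _ _ (by omega)) hcardpos
  refine ⟨fun v => (ω v : ℕ), fun v => (ω v).2, ?_, ?_⟩
  · intro v y
    by_cases hy : y < K
    · have h1' := hω v (mem_univ v)
      rw [not_or] at h1'
      have h2' := h1'.1
      rw [hB1] at h2'
      push Not at h2'
      have h3 := h2' ⟨y, hy⟩
      have h5 : (Nb G v).filter (fun u => (ω u : ℕ) = y) =
          (Nb G v).filter (fun u => ω u = ⟨y, hy⟩) := by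
        apply Finset.filter_congr
        intro u _
        rw [Fin.ext_iff]
      rw [h5]
      omega
    · have h3 : (Nb G v).filter (fun u => (ω u : ℕ) = y) = ∅ := by
        apply Finset.filter_eq_empty_iff.2
        intro u _ h
        exact hy (by rw [← h]; exact (ω u).2)
      rw [h3]; simp
  · intro j hj v P hP1 hP2 hP3
    have h1' := hω v (mem_univ v)
    rw [not_or] at h1'
    by_contra hcon
    push Not at hcon
    exact h1'.2 ⟨j, Finset.mem_range.2 hj, P, hP1, hP2, hP3, fun A hA u hu =>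
      Fin.ext (hcon A hA u hu)⟩

/-- a family without `C` disjoint members has a small hitting set -/
theorem hitting {V : Type} (C q : ℕ) (𝓕 : Finset (Finset V)) (h1 : ∀ A ∈ 𝓕, A.card = q) (hq : 1 ≤ q)
    (h2 : ∀ P : Finset (Finset V), P ⊆ 𝓕 → P.card = C →
      ¬ (P : Set (Finset V)).PairwiseDisjoint id) :
    ∃ S : Finset V, S.card ≤ q * C ∧ (∀ x ∈ S, ∃ A ∈ 𝓕, x ∈ A) ∧ ∀ A ∈ 𝓕, ∃ x ∈ A, x ∈ S := by
  obtain ⟨P, hP1, hP2⟩ := Finset.exists_max_image
    ((𝓕.powerset).filter (fun P : Finset (Finset V) => (P : Set (Finset V)).PairwiseDisjoint id))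
    Finset.card ⟨∅, by simp⟩
  rw [Finset.mem_filter, Finset.mem_powerset] at hP1
  obtain ⟨hP1, hP3⟩ := hP1
  have hPC : P.card ≤ C := by
    by_contra hcon
    push Not at hcon
    obtain ⟨Q, hQ1, hQ2⟩ := Finset.exists_subset_card_eq hcon.le
    exact h2 Q (hQ1.trans hP1) hQ2 (hP3.subset (by exact_mod_cast hQ1))
  refine ⟨P.biUnion id, ?_, ?_, ?_⟩
  · refine Finset.card_biUnion_le.trans ?_
    have h50 : ∀ A ∈ P, (id A : Finset V).card = q := fun A hA => h1 A (hP1 hA)
    rw [Finset.sum_congr rfl h50, Finset.sum_const, smul_eq_mul, mul_comm]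
    exact Nat.mul_le_mul_left _ hPC
  · intro x hx
    obtain ⟨A, hA, hxA⟩ := Finset.mem_biUnion.1 hx
    exact ⟨A, hP1 hA, hxA⟩
  · intro A hA
    by_contra hcon
    push Not at hcon
    have hdis : ∀ A' ∈ P, Disjoint A A' := by
      intro A' hA'
      rw [Finset.disjoint_left]
      intro x hx hx'
      exact hcon x hx (Finset.mem_biUnion.2 ⟨A', hA', hx'⟩)
    have hAP : A ∉ P := by
      intro hAP
      have := hdis A hAP
      rw [disjoint_self] at this
      have h3 := h1 A hA
      rw [this] at h3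
      simp at h3
      omega
    have h4 := hP2 (insert A P) (by
      rw [Finset.mem_filter, Finset.mem_powerset]
      refine ⟨Finset.insert_subset hA hP1, ?_⟩
      rw [Finset.coe_insert]
      refine hP3.insert ?_
      intro A' hA' _
      exact hdis A' hA')
    rw [Finset.card_insert_of_notMem hAP] at h4
    omega

end Pool.Agent.W837.Blow
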