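import Mathlib
import Pool.Agent.W837.Blow.Part

set_option autoImplicit false

/-!
# The families attached to heavy and light cliques
-/

namespace Pool.Agent.W837.Blow

open Finset Pool.Agent.Helper635.LLL Pool.Agent.Helper311.Glue Classical

variable {V : Type} [Fintype V]

/-- the family at a vertex -/
noncomputable def Fam (G : SimpleGraph V) (L : ℕ → ℝ) (k : ℕ) (O : V → Finset V) (j : ℕ) (v : V) :
    Finset (Finset V) :=
  if j < k then univ.filter (fun A => v ∉ A ∧ Hv G L (k + 2) j (insert v A) ∧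
    ∃ w ∈ A, ¬ Hv G L (k + 2) (j + 1) (insert v (A.erase w)))
  else (O v).image (fun w => {w})

theorem Fam_sub (G : SimpleGraph V) (L : ℕ → ℝ) (hL : ∀ j, 0 < L j) (k : ℕ) (O : V → Finset V)
    (hO : ∀ v, ∀ w ∈ O v, w ≠ v ∧ Hv G L (k + 2) k {w, v}) (j : ℕ) (hj : j < k + 1) (v : V)
    (A : Finset V) (hA : A ∈ Fam G L k O j v) : A ⊆ Nb G v ∧ A.card = k + 1 - j := by
  rw [Fam] at hA
  by_cases hjk : j < k
  · rw [if_pos hjk] at hA
    obtain ⟨-, hvA, hS, -⟩ := Finset.mem_filter.1 hA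
    obtain ⟨h1, h2⟩ := Hv_clique G L _ hL _ _ hS
    rw [Finset.card_insert_of_notMem hvA] at h1
    refine ⟨fun w hw => ?_, by omega⟩
    rw [mem_Nb]
    refine h2 (by simp) (by simp [hw]) ?_
    rintro rfl
    exact hvA hw
  · rw [if_neg hjk] at hA
    obtain ⟨w, hw, rfl⟩ := Finset.mem_image.1 hA
    obtain ⟨hwv, hw2⟩ := hO v w hw
    obtain ⟨-, h2⟩ := Hv_clique G L _ hL _ _ hw2
    refine ⟨?_, ?_⟩
    · rw [Finset.singleton_subset_iff, mem_Nb]
      exact h2 (by simp) (by simp) (Ne.symm hwv)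
    · rw [Finset.card_singleton]; omega

theorem Fam_card (G : SimpleGraph V) (L : ℕ → ℝ) (hL : ∀ j, 0 < L j) (k D : ℕ)
    (hD : ∀ v, (Nb G v).card ≤ D) (O : V → Finset V)
    (hO1 : ∀ v, ((O v).card : ℝ) < L k) (j : ℕ) (hj : j < k + 1) (v : V) :
    ((Fam G L k O j v).card : ℝ) ≤ (D : ℝ) ^ (k - j) * L j := by
  rw [Fam]
  by_cases hjk : j < k
  · rw [if_pos hjk]
    set I : Finset (Finset V) := (powersetCard (k - j) (Nb G v)).filter
      (fun B => v ∉ B ∧ ¬ Hv G L (k + 2) (j + 1) (insert v B)) with hI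
    have hsub : univ.filter (fun A : Finset V => v ∉ A ∧ Hv G L (k + 2) j (insert v A) ∧
        ∃ w ∈ A, ¬ Hv G L (k + 2) (j + 1) (insert v (A.erase w))) ⊆
        I.biUnion (fun B => (univ.filter (fun w => w ∉ insert v B ∧
          Hv G L (k + 2) j (insert w (insert v B)))).image (fun w => insert w B)) := by
      intro A hA
      obtain ⟨-, hvA, hS, w, hw, hT⟩ := Finset.mem_filter.1 hA
      obtain ⟨h1, h2⟩ := Hv_clique G L _ hL _ _ hS
      rw [Finset.card_insert_of_notMem hvA] at h1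
      have hwv : w ≠ v := by rintro rfl; exact hvA hw
      rw [Finset.mem_biUnion]
      refine ⟨A.erase w, ?_, ?_⟩
      · rw [hI, Finset.mem_filter, Finset.mem_powersetCard]
        refine ⟨⟨fun z hz => ?_, ?_⟩, fun h => hvA (Finset.mem_of_mem_erase h), hT⟩
        · rw [mem_Nb]
          have hz' := Finset.mem_of_mem_erase hz
          refine h2 (by simp) (by simp [hz']) ?_
          rintro rfl
          exact hvA hz'
        · rw [Finset.card_erase_of_mem hw]; omega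
      · rw [Finset.mem_image]
        refine ⟨w, ?_, Finset.insert_erase hw⟩
        rw [Finset.mem_filter]
        refine ⟨Finset.mem_univ _, ?_, ?_⟩
        · simp [hwv]
        · rw [Finset.insert_comm, Finset.insert_erase hw]
          exact hS
    have h1 := (Finset.card_le_card hsub).trans Finset.card_biUnion_le
    have h2 : ∀ B ∈ I, (((univ.filter (fun w => w ∉ insert v B ∧
          Hv G L (k + 2) j (insert w (insert v B)))).image (fun w => insert w B)).card : ℝ) ≤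
          L j := by
      intro B hB
      rw [hI, Finset.mem_filter] at hB
      have h3 : ¬ (L j ≤ ((univ.filter (fun w => w ∉ insert v B ∧
        Hv G L (k + 2) j (insert w (insert v B)))).card : ℝ)) := hB.2.2
      push Not at h3
      refine le_trans ?_ h3.le
      exact_mod_cast Finset.card_image_le
    have h3 : (I.card : ℝ) ≤ (D : ℝ) ^ (k - j) := by
      have h4 : I.card ≤ D ^ (k - j) := by
        refine (Finset.card_filter_le _ _).trans ?_
        rw [Finset.card_powersetCard]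
        exact (Nat.choose_le_pow _ _).trans (Nat.pow_le_pow_left (hD v) _)
      exact_mod_cast h4
    have h4 : ((univ.filter (fun A : Finset V => v ∉ A ∧ Hv G L (k + 2) j (insert v A) ∧
        ∃ w ∈ A, ¬ Hv G L (k + 2) (j + 1) (insert v (A.erase w)))).card : ℝ) ≤
        ∑ B ∈ I, (((univ.filter (fun w => w ∉ insert v B ∧
          Hv G L (k + 2) j (insert w (insert v B)))).image (fun w => insert w B)).card : ℝ) := by
      exact_mod_cast h1
    refine h4.trans ((Finset.sum_le_sum h2).trans ?_)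
    rw [Finset.sum_const, nsmul_eq_mul]
    exact mul_le_mul_of_nonneg_right h3 (hL j).le
  · rw [if_neg hjk]
    have h1 : j = k := by omega
    subst h1
    rw [Nat.sub_self, pow_zero, one_mul]
    refine le_trans ?_ (hO1 v).le
    exact_mod_cast Finset.card_image_le

theorem Fam_clique (G : SimpleGraph V) (L : ℕ → ℝ) (hL : ∀ j, 0 < L j) (k : ℕ)
    (O : V → Finset V)
    (hO3 : ∀ u w, w ≠ u ∧ Hv G L (k + 2) k {w, u} → u ∈ O w ∨ w ∈ O u) (T : Finset V)
    (hT : G.IsNClique (k + 2) T) :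
    ∃ j < k + 1, ∃ v ∈ T, ∃ A ∈ Fam G L k O j v, A ⊆ T := by
  set Q : ℕ → Prop := fun j => ∃ S ⊆ T, Hv G L (k + 2) j S with hQ
  have hQ0 : Q 0 := ⟨T, Finset.Subset.refl _, hT⟩
  by_cases hstep : ∀ j < k, Q j → Q (j + 1)
  · have hQk : ∀ j ≤ k, Q j := by
      intro j
      induction j with
      | zero => exact fun _ => hQ0
      | succ j ih => exact fun h => hstep j (by omega) (ih (by omega))
    obtain ⟨S, hST, hS⟩ := hQk k le_rfl
    obtain ⟨h1, h2⟩ := Hv_clique G L _ hL _ _ hS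
    have h3 : S.card = 2 := by omega
    obtain ⟨u, w, huw, rfl⟩ := Finset.card_eq_two.1 h3
    refine ⟨k, by omega, ?_⟩
    have h4 : u ∈ O w ∨ w ∈ O u := by
      refine hO3 u w ⟨huw.symm, ?_⟩
      rw [Finset.pair_comm]
      exact hS
    have huT : u ∈ T := hST (by simp)
    have hwT : w ∈ T := hST (by simp)
    rcases h4 with h4 | h4
    · refine ⟨w, hwT, {u}, ?_, by simpa using huT⟩
      rw [Fam, if_neg (lt_irrefl k)]
      exact Finset.mem_image.2 ⟨u, h4, rfl⟩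
    · refine ⟨u, huT, {w}, ?_, by simpa using hwT⟩
      rw [Fam, if_neg (lt_irrefl k)]
      exact Finset.mem_image.2 ⟨w, h4, rfl⟩
  · push Not at hstep
    obtain ⟨j, hjk, ⟨S, hST, hS⟩, hnot⟩ := hstep
    obtain ⟨h1, h2⟩ := Hv_clique G L _ hL _ _ hS
    obtain ⟨v, hv, w, hw, hvw⟩ := Finset.one_lt_card.1 (show 1 < S.card by omega)
    refine ⟨j, by omega, v, hST hv, S.erase v, ?_, (Finset.erase_subset _ _).trans hST⟩
    rw [Fam, if_pos hjk, Finset.mem_filter]
    refine ⟨Finset.mem_univ _, Finset.notMem_erase _ _, ?_, w, ?_, ?_⟩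
    · rw [Finset.insert_erase hv]; exact hS
    · exact Finset.mem_erase.2 ⟨Ne.symm hvw, hw⟩
    · intro hcon
      have h3 : insert v ((S.erase v).erase w) = S.erase w := by
        rw [Finset.erase_right_comm, Finset.insert_erase]
        exact Finset.mem_erase.2 ⟨hvw, hv⟩
      rw [h3] at hcon
      exact hnot ⟨S.erase w, (Finset.erase_subset _ _).trans hST, hcon⟩

/-- **Structure theorem.** -/
theorem parts (G : SimpleGraph V) (L : ℕ → ℝ) (hL : ∀ j, 0 < L j) (k t D N K C : ℕ) (hk : 1 ≤ k)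
    (ht : 1 ≤ t) (hD : 1 ≤ D) (hK : 1 ≤ K) (hdeg : ∀ v, (Nb G v).card ≤ D)
    (hN : ∀ φ : Fin (k + 1) → Fin t → V, (∀ i, Function.Injective (φ i)) →
      (∀ i j a b, i ≠ j → G.Adj (φ i a) (φ j b)) →
      (univ.filter (fun u => ∀ i a, G.Adj u (φ i a))).card ≤ N)
    (hnum : ((N : ℝ) + (k + 1) * t ^ 2) * (D : ℝ) ^ ((k + 1) * t - 1) *
      (D : ℝ) ^ ((k + 1) * t ^ (k + 1)) <
      (∏ i ∈ range (k + 1), L i) ^ (t ^ (k + 1)) * (D : ℝ) ^ ((k + 1) * t))
    (p : ℝ) (hp0 : 0 ≤ p)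
    (hp : ∀ j < k + 1, ((D : ℝ) ^ (k - j) * L j / (K : ℝ) ^ (k + 1 - j)) ^ C ≤ p)
    (x : ℝ) (hx : 0 ≤ x) (hx1 : x ≤ 1)
    (h4 : 4 * (K * Real.exp (-(x ^ 2 * D / (3 * K))) + (k + 1 : ℕ) * p) * ((D + 1) ^ 2 : ℕ) ≤ 1) :
    ∃ (τ : V → ℕ) (S : V → Finset V), (∀ v, τ v < K) ∧
      (∀ v y, ((Nb G v).filter (fun u => τ u = y)).card ≤ ⌊(1 + x) * D / K⌋₊) ∧
      (∀ v, (S v).card ≤ (k + 1) * ((k + 1) * C)) ∧
      (∀ v, ∀ w ∈ S v, G.Adj v w ∧ τ w = τ v) ∧
      ∀ T : Finset V, G.IsNClique (k + 2) T → (∀ u ∈ T, ∀ w ∈ T, τ u = τ w) →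
        ∃ u ∈ T, ∃ w ∈ T, w ∈ S u := by
  set P : V → V → Prop := fun u w => w ≠ u ∧ Hv G L (k + 2) k {w, u} with hP
  obtain ⟨O, hO1, hO2, hO3⟩ := orient P (by
      intro u w h
      refine ⟨Ne.symm h.1, ?_⟩
      rw [Finset.pair_comm]
      exact h.2) (L k) (hL k)
      (fun X hX => by
        obtain ⟨u, hu, h⟩ := super G L hL k t D N hk ht hD hdeg hN hnum X hX
        exact ⟨u, hu, by convert h⟩) _ univ rfl
  obtain ⟨τ, hτ1, hτ2, hτ3⟩ := exists_part G K D C (k + 1) hK hdeg (Fam G L k O)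
    (fun j => k + 1 - j) (fun j => (D : ℝ) ^ (k - j) * L j)
    (fun j hj v A hA => Fam_sub G L hL k O hO2 j hj v A hA)
    (fun j hj v => Fam_card G L hL k D hdeg O hO1 j hj v) p hp0 hp x hx hx1 h4
  have hhit : ∀ (j : ℕ) (v : V), ∃ S : Finset V, j < k + 1 → S.card ≤ (k + 1) * C ∧
      (∀ x ∈ S, G.Adj v x ∧ τ x = τ v) ∧
      ∀ A ∈ Fam G L k O j v, (∀ u ∈ A, τ u = τ v) → ∃ x ∈ A, x ∈ S := by
    intro j v
    by_cases hj : j < k + 1
    · obtain ⟨S, hS1, hS2, hS3⟩ := hitting C (k + 1 - j)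
        ((Fam G L k O j v).filter (fun A => ∀ u ∈ A, τ u = τ v))
        (fun A hA => (Fam_sub G L hL k O hO2 j hj v A (Finset.mem_filter.1 hA).1).2) (by omega)
        (by
          intro Q hQ1 hQ2 hQ3
          obtain ⟨A, hA, u, hu, hne⟩ := hτ3 j hj v Q
            (fun A hA => (Finset.mem_filter.1 (hQ1 hA)).1) hQ2 hQ3
          exact hne ((Finset.mem_filter.1 (hQ1 hA)).2 u hu))
      refine ⟨S, fun _ => ⟨hS1.trans (Nat.mul_le_mul_right _ (by omega)), ?_, ?_⟩⟩
      · intro x hx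
        obtain ⟨A, hA, hxA⟩ := hS2 x hx
        obtain ⟨hA1, hA2⟩ := Finset.mem_filter.1 hA
        exact ⟨mem_Nb.1 ((Fam_sub G L hL k O hO2 j hj v A hA1).1 hxA), hA2 x hxA⟩
      · intro A hA hA2
        exact hS3 A (Finset.mem_filter.2 ⟨hA, hA2⟩)
    · exact ⟨∅, fun h => absurd h hj⟩
  choose S hS using hhit
  refine ⟨τ, fun v => (range (k + 1)).biUnion (fun j => S j v), hτ1, hτ2, ?_, ?_, ?_⟩
  · intro v
    refine Finset.card_biUnion_le.trans ?_
    refine (Finset.sum_le_sum (fun j hj => (hS j v (Finset.mem_range.1 hj)).1)).trans ?_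
    rw [Finset.sum_const, Finset.card_range, smul_eq_mul]
  · intro v w hw
    obtain ⟨j, hj, hwj⟩ := Finset.mem_biUnion.1 hw
    exact (hS j v (Finset.mem_range.1 hj)).2.1 w hwj
  · intro T hT hTτ
    obtain ⟨j, hj, v, hv, A, hA, hAT⟩ := Fam_clique G L hL k O
      (fun u w h => hO3 u (Finset.mem_univ _) w (Finset.mem_univ _) h) T hT
    obtain ⟨x, hxA, hxS⟩ := (hS j v hj).2.2 A hA (fun u hu => hTτ u (hAT hu) v hv)
    exact ⟨v, hv, x, hAT hxA, Finset.mem_biUnion.2 ⟨j, Finset.mem_range.2 hj, hxS⟩⟩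

end Pool.Agent.W837.Blow
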