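import Mathlib
import Pool.Agent.Helper311.Glue.Main
import Pool.Agent.W837.Blow.Fam

set_option autoImplicit false

/-!
# Asymptotics
-/

namespace Pool.Agent.W837.Blow

open Finset Filter Pool.Agent.Helper311.Glue Classical

theorem pick_z (c B ε : ℝ) (hε : 0 < ε) :
    ∃ z : ℝ, 0 < z ∧ z < 1 / 2 ∧ (c + z) * (1 + z) * B / ((1 - z) * (1 - z)) ≤ c * B + ε := by
  have hcont : ContinuousAt (fun z : ℝ => (c + z) * (1 + z) * B / ((1 - z) * (1 - z))) 0 := by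
    refine ContinuousAt.div ?_ ?_ (by norm_num)
    · fun_prop
    · fun_prop
  have h0 : (fun z : ℝ => (c + z) * (1 + z) * B / ((1 - z) * (1 - z))) 0 < c * B + ε := by
    simp only
    have : (c + 0) * (1 + 0) * B / ((1 - 0) * (1 - 0)) = c * B := by ring
    rw [this]; linarith
  have h1 := hcont.eventually_lt_const h0
  obtain ⟨η, hη, hη2⟩ := Metric.eventually_nhds_iff.1 h1
  refine ⟨min (η / 2) (1 / 4), by positivity, ?_, ?_⟩
  · exact lt_of_le_of_lt (min_le_right _ _) (by norm_num)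
  · refine le_of_lt (hη2 ?_)
    rw [Real.dist_eq, sub_zero, abs_of_pos (by positivity)]
    exact lt_of_le_of_lt (min_le_left _ _) (by linarith)

/-- the thresholds -/
noncomputable def Lf (k : ℕ) (δ θ : ℝ) (D : ℕ) (j : ℕ) : ℝ :=
  (D : ℝ) ^ (1 - (((k + 1 - j : ℕ) : ℝ) * δ + θ))

theorem sum_levels (k : ℕ) : ∑ j ∈ range (k + 1), ((k + 1 - j : ℕ) : ℝ) =
    ((k + 2).choose 2 : ℕ) := by
  have h : ∑ j ∈ range (k + 1), (k + 1 - j) = (k + 2).choose 2 := by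
    have h1 : ∑ j ∈ range (k + 1), (k + 1 - j) = ∑ j ∈ range (k + 1), (j + 1) := by
      rw [← Finset.sum_range_reflect]
      refine Finset.sum_congr rfl (fun j hj => ?_)
      rw [Finset.mem_range] at hj
      omega
    rw [h1, Finset.sum_add_distrib, Finset.sum_const, Finset.card_range, smul_eq_mul, mul_one]
    have h2 := Finset.sum_range_id_mul_two (k + 1)
    have h3 : (k + 2).choose 2 * 2 = (k + 2) * (k + 1) := by
      rw [Nat.choose_two_right]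
      have h4 : 2 ∣ (k + 2) * (k + 2 - 1) := (Nat.even_mul_pred_self (k + 2)).two_dvd
      rw [Nat.div_mul_cancel h4]
      rfl
    have h5 : (k + 1) * (k + 1 - 1) = (k + 1) * k := by rw [Nat.add_sub_cancel]
    rw [h5] at h2
    nlinarith
  rw [← h]
  push_cast
  rfl

theorem prod_levels (k : ℕ) (δ θ : ℝ) (D : ℕ) (hD : 1 ≤ D) :
    ∏ j ∈ range (k + 1), Lf k δ θ D j =
      (D : ℝ) ^ ((k + 1 : ℝ) - (((k + 2).choose 2 : ℕ) : ℝ) * δ - (k + 1) * θ) := by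
  have hDr : (0 : ℝ) < D := by exact_mod_cast hD
  have h1 : ∏ j ∈ range (k + 1), Lf k δ θ D j =
      (D : ℝ) ^ (∑ j ∈ range (k + 1), (1 - (((k + 1 - j : ℕ) : ℝ) * δ + θ))) := by
    rw [Real.rpow_sum_of_pos hDr]
    rfl
  rw [h1]
  congr 1
  rw [Finset.sum_sub_distrib, Finset.sum_add_distrib, ← Finset.sum_mul, sum_levels]
  simp only [Finset.sum_const, Finset.card_range, nsmul_eq_mul]
  push_cast
  ring

/-- the main estimate -/
theorem main {W : Type} [Fintype W] (F : SimpleGraph W) (k t : ℕ) (hk : 1 ≤ k) (ht : 1 ≤ t)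
    (κ : F.Coloring (Fin (k + 2))) (i₀ : Fin (k + 2))
    (hκ : ∀ i, i ≠ i₀ → (univ.filter (fun w => κ w = i)).card ≤ t) (c : ℝ) (hc : 0 ≤ c)
    (hcK : UpTo (⊤ : SimpleGraph (Fin (k + 2))) c) :
    UpTo F (c * (((k + 2).choose 2 * t ^ (k + 1) : ℕ) : ℝ)) := by
  intro ε hε
  set b : ℕ := (k + 2).choose 2 with hb
  set B : ℝ := ((b * t ^ (k + 1) : ℕ) : ℝ) with hB
  have hb3 : 3 ≤ b := by
    have h1 : (3 : ℕ).choose 2 ≤ (k + 2).choose 2 := Nat.choose_le_choose 2 (by omega)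
    have h2 : (3 : ℕ).choose 2 = 3 := by decide
    omega
  have htm : 1 ≤ t ^ (k + 1) := Nat.one_le_pow _ _ ht
  have hB3 : (3 : ℝ) ≤ B := by
    rw [hB]
    have : 3 ≤ b * t ^ (k + 1) := le_trans hb3 (Nat.le_mul_of_pos_right _ htm)
    exact_mod_cast this
  obtain ⟨z, hz0, hz1, hz2⟩ := pick_z c B ε hε
  set T : ℝ := (t : ℝ) ^ (k + 1) with hT
  have hT1 : (1 : ℝ) ≤ T := by rw [hT]; exact_mod_cast htm
  have hBT : B = b * T := by rw [hB, hT]; push_cast; ring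
  set δ : ℝ := (1 - z) / B with hδ
  have hδ0 : 0 < δ := by rw [hδ]; apply div_pos <;> linarith
  have hδ1 : δ < 1 := by
    rw [hδ, div_lt_one (by linarith)]; linarith
  set θ : ℝ := z / (2 * (k + 1) * T) with hθ
  have hθ0 : 0 < θ := by rw [hθ]; positivity
  set C : ℕ := ⌈4 / θ⌉₊ with hC
  have hC4 : 4 ≤ θ * C := by
    have := Nat.le_ceil (4 / θ)
    rw [div_le_iff₀ hθ0] at this
    rw [mul_comm]; exact this
  set s : ℕ := (k + 1) * ((k + 1) * C) with hs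
  obtain ⟨D₀, hD₀⟩ := colour (⊤ : SimpleGraph (Fin (k + 2))) hc (UpTo.gb hc hcK) s 1 z hz0
  set N : ℕ := Fintype.card W with hN
  -- eventual inequalities
  have hpw : ∀ a : ℝ, 0 < a → Tendsto (fun x : ℝ => x ^ a) atTop atTop := fun a ha =>
    tendsto_rpow_atTop ha
  have E1 : ∀ᶠ x : ℝ in atTop, (N : ℝ) + (k + 1) * t ^ 2 < x ^ (z / 2) :=
    (hpw (z / 2) (by positivity)).eventually_gt_atTop _
  have E2 : ∀ᶠ x : ℝ in atTop, 32 * ((k : ℝ) + 1) ≤ x := eventually_ge_atTop _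
  set Nn : ℕ := ⌈3 / δ⌉₊ with hNn
  have E3 : ∀ᶠ x : ℝ in atTop, Real.exp (-(z ^ 2 / 6 * x ^ δ)) * (x ^ δ + 1) ^ Nn ≤ 1 / 64 :=
    (hpw δ hδ0).eventually (asy_exp (α := z ^ 2 / 6) (κ := 1 / 64) (by positivity) (by norm_num) Nn)
  have E4 : ∀ᶠ x : ℝ in atTop, (D₀ : ℝ) + 3 ≤ x ^ (δ * (1 - z)) :=
    (hpw (δ * (1 - z)) (mul_pos hδ0 (by linarith))).eventually_ge_atTop _
  have E5 : ∀ᶠ x : ℝ in atTop, 4 ≤ x ^ (δ * z) :=
    (hpw (δ * z) (mul_pos hδ0 hz0)).eventually_ge_atTop _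
  have E6 : ∀ᶠ x : ℝ in atTop, 3 ≤ x := eventually_ge_atTop _
  have E := ((((E1.and E2).and E3).and E4).and E5).and E6
  obtain ⟨Δ₀, hΔ₀⟩ := eventually_atTop.1 (tendsto_natCast_atTop_atTop.eventually E)
  refine ⟨Δ₀, ?_⟩
  intro D hD V instV G inst hfree hmax
  obtain ⟨⟨⟨⟨⟨e1, e2⟩, e3⟩, e4⟩, e5⟩, e6⟩ := hΔ₀ D hD
  have hD3 : 3 ≤ D := by exact_mod_cast e6
  have hD1 : 1 ≤ D := by omega
  have hDpos : (0 : ℝ) < D := by linarith
  have hDr1 : (1 : ℝ) ≤ D := by linarith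
  have hdeg : ∀ v, (Nb G v).card ≤ D := by
    intro v
    rw [Nb_eq, SimpleGraph.card_neighborFinset_eq_degree, ← hmax]
    exact G.degree_le_maxDegree v
  set K : ℕ := ⌈(D : ℝ) ^ (1 - δ)⌉₊ with hK
  have hKle : (D : ℝ) ^ (1 - δ) ≤ K := Nat.le_ceil _
  have hpow1 : (1 : ℝ) ≤ (D : ℝ) ^ (1 - δ) := Real.one_le_rpow hDr1 (by linarith)
  have hKr1 : (1 : ℝ) ≤ K := hpow1.trans hKle
  have hK1 : 1 ≤ K := by exact_mod_cast hKr1
  have hKpos : (0 : ℝ) < K := by linarith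
  have hKge : (K : ℝ) ≤ 2 * (D : ℝ) ^ (1 - δ) := by
    have := Nat.ceil_lt_add_one (show 0 ≤ (D : ℝ) ^ (1 - δ) by linarith)
    linarith
  have hDK : (D : ℝ) ^ δ / 2 ≤ D / K := by
    rw [div_le_div_iff₀ two_pos hKpos]
    have h1 : (D : ℝ) ^ δ * (D : ℝ) ^ (1 - δ) = D := by
      rw [← Real.rpow_add hDpos]
      rw [show δ + (1 - δ) = 1 by ring, Real.rpow_one]
    have h2 : 0 ≤ (D : ℝ) ^ δ := by positivity
    nlinarith
  -- the thresholds
  have hL : ∀ j, 0 < Lf k δ θ D j := fun j => Real.rpow_pos_of_pos hDpos _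
  have hnum : ((N : ℝ) + (k + 1) * t ^ 2) * (D : ℝ) ^ ((k + 1) * t - 1) *
      (D : ℝ) ^ ((k + 1) * t ^ (k + 1)) <
      (∏ i ∈ range (k + 1), Lf k δ θ D i) ^ (t ^ (k + 1)) * (D : ℝ) ^ ((k + 1) * t) := by
    rw [prod_levels k δ θ D hD1, ← Real.rpow_natCast ((D : ℝ) ^ _) (t ^ (k + 1)),
      ← Real.rpow_mul hDpos.le]
    have h1 : ((k + 1 : ℝ) - (b : ℝ) * δ - (k + 1) * θ) * ((t ^ (k + 1) : ℕ) : ℝ) =
        (k + 1) * T - 1 + z / 2 := by
      have h2 : ((t ^ (k + 1) : ℕ) : ℝ) = T := by rw [hT]; push_cast; ring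
      rw [h2]
      have h3 : (b : ℝ) * δ * T = 1 - z := by
        rw [hδ, hBT]
        have hb0 : (b : ℝ) ≠ 0 := by
          have : (3 : ℝ) ≤ b := by exact_mod_cast hb3
          linarith
        have hT0 : T ≠ 0 := by linarith
        field_simp
      have h4 : ((k : ℝ) + 1) * θ * T = z / 2 := by
        rw [hθ]
        have hT0 : T ≠ 0 := by linarith
        field_simp
      calc ((k + 1 : ℝ) - (b : ℝ) * δ - (k + 1) * θ) * T =
          (k + 1) * T - (b : ℝ) * δ * T - ((k : ℝ) + 1) * θ * T := by ring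
        _ = _ := by rw [h3, h4]; ring
    rw [h1]
    have h5 : (D : ℝ) ^ ((k + 1 : ℝ) * T - 1 + z / 2) * (D : ℝ) ^ ((k + 1) * t) =
        (D : ℝ) ^ (z / 2) * (D : ℝ) ^ ((k + 1) * t - 1) * (D : ℝ) ^ ((k + 1) * t ^ (k + 1)) := by
      have hkt : 1 ≤ (k + 1) * t := Nat.mul_pos (by omega) ht
      rw [← Real.rpow_natCast (D : ℝ) ((k + 1) * t), ← Real.rpow_natCast (D : ℝ) ((k + 1) * t - 1),
        ← Real.rpow_natCast (D : ℝ) ((k + 1) * t ^ (k + 1)), ← Real.rpow_add hDpos,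
        ← Real.rpow_add hDpos, ← Real.rpow_add hDpos]
      congr 1
      rw [Nat.cast_sub hkt, hT]
      push_cast
      ring
    rw [h5]
    have h6 : 0 < (D : ℝ) ^ ((k + 1) * t - 1) := by positivity
    have h7 : 0 < (D : ℝ) ^ ((k + 1) * t ^ (k + 1)) := by positivity
    exact mul_lt_mul_of_pos_right (mul_lt_mul_of_pos_right e1 h6) h7
  -- the probabilities
  have hp : ∀ j < k + 1, ((D : ℝ) ^ (k - j) * Lf k δ θ D j / (K : ℝ) ^ (k + 1 - j)) ^ C ≤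
      1 / (D : ℝ) ^ 4 := by
    intro j hj
    have h1 : (D : ℝ) ^ (k - j) * Lf k δ θ D j =
        ((D : ℝ) ^ (1 - δ)) ^ (k + 1 - j) * (D : ℝ) ^ (-θ) := by
      rw [Lf, ← Real.rpow_natCast (D : ℝ) (k - j), ← Real.rpow_natCast ((D : ℝ) ^ (1 - δ)),
        ← Real.rpow_mul hDpos.le, ← Real.rpow_add hDpos, ← Real.rpow_add hDpos]
      congr 1
      rw [Nat.cast_sub (by omega : j ≤ k), Nat.cast_sub (by omega : j ≤ k + 1)]
      push_cast
      ring
    have h2 : (D : ℝ) ^ (k - j) * Lf k δ θ D j / (K : ℝ) ^ (k + 1 - j) ≤ (D : ℝ) ^ (-θ) := by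
      rw [div_le_iff₀ (by positivity), h1, mul_comm]
      refine mul_le_mul_of_nonneg_left ?_ (by positivity)
      exact pow_le_pow_left₀ (by positivity) hKle _
    have h3 : 0 ≤ (D : ℝ) ^ (k - j) * Lf k δ θ D j / (K : ℝ) ^ (k + 1 - j) := by
      have := (hL j).le
      positivity
    calc ((D : ℝ) ^ (k - j) * Lf k δ θ D j / (K : ℝ) ^ (k + 1 - j)) ^ C ≤
          ((D : ℝ) ^ (-θ)) ^ C := pow_le_pow_left₀ h3 h2 _
      _ = (D : ℝ) ^ (-(θ * C)) := by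
          rw [← Real.rpow_natCast, ← Real.rpow_mul hDpos.le]; congr 1; ring
      _ ≤ (D : ℝ) ^ (-(4 : ℝ)) := Real.rpow_le_rpow_of_exponent_le hDr1 (by linarith)
      _ = 1 / (D : ℝ) ^ 4 := by
          rw [Real.rpow_neg hDpos.le, one_div]
          congr 1
          exact_mod_cast Real.rpow_natCast (D : ℝ) 4
  have h4 : 4 * (K * Real.exp (-(z ^ 2 * D / (3 * K))) + (k + 1 : ℕ) * (1 / (D : ℝ) ^ 4)) *
      ((D + 1) ^ 2 : ℕ) ≤ 1 := by
    have g1 : (((D + 1) ^ 2 : ℕ) : ℝ) ≤ 4 * (D : ℝ) ^ 2 := by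
      push_cast
      nlinarith
    have g2 : Real.exp (-(z ^ 2 * D / (3 * K))) ≤ Real.exp (-(z ^ 2 / 6 * (D : ℝ) ^ δ)) := by
      apply Real.exp_le_exp.2
      have : z ^ 2 / 6 * (D : ℝ) ^ δ ≤ z ^ 2 * D / (3 * K) := by
        calc z ^ 2 / 6 * (D : ℝ) ^ δ = z ^ 2 / 3 * ((D : ℝ) ^ δ / 2) := by ring
          _ ≤ z ^ 2 / 3 * (D / K) := mul_le_mul_of_nonneg_left hDK (by positivity)
          _ = _ := by field_simp
      linarith
    have g3 : (K : ℝ) ≤ 2 * D := by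
      refine hKge.trans ?_
      have : (D : ℝ) ^ (1 - δ) ≤ (D : ℝ) ^ (1 : ℝ) :=
        Real.rpow_le_rpow_of_exponent_le hDr1 (by linarith)
      rw [Real.rpow_one] at this
      linarith
    have g4 : (D : ℝ) ^ 3 ≤ ((D : ℝ) ^ δ + 1) ^ Nn := by
      have h1 : (1 : ℝ) ≤ (D : ℝ) ^ δ := Real.one_le_rpow hDr1 hδ0.le
      have h2 : 3 / δ ≤ Nn := Nat.le_ceil _
      have h3 : 3 ≤ δ * Nn := by
        rw [div_le_iff₀ hδ0] at h2
        linarith
      calc (D : ℝ) ^ 3 = (D : ℝ) ^ (3 : ℝ) := by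
            exact_mod_cast (Real.rpow_natCast (D : ℝ) 3).symm
        _ ≤ (D : ℝ) ^ (δ * Nn) := Real.rpow_le_rpow_of_exponent_le hDr1 h3
        _ = ((D : ℝ) ^ δ) ^ Nn := by rw [Real.rpow_mul hDpos.le, Real.rpow_natCast]
        _ ≤ ((D : ℝ) ^ δ + 1) ^ Nn := pow_le_pow_left₀ (by linarith) (by linarith) _
    have g5 : Real.exp (-(z ^ 2 / 6 * (D : ℝ) ^ δ)) * (D : ℝ) ^ 3 ≤ 1 / 64 :=
      (mul_le_mul_of_nonneg_left g4 (Real.exp_pos _).le).trans e3
    have g6 : (K : ℝ) * Real.exp (-(z ^ 2 * D / (3 * K))) * (4 * (D : ℝ) ^ 2) ≤ 1 / 8 := by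
      calc (K : ℝ) * Real.exp (-(z ^ 2 * D / (3 * K))) * (4 * (D : ℝ) ^ 2) ≤
            (2 * D) * Real.exp (-(z ^ 2 / 6 * (D : ℝ) ^ δ)) * (4 * (D : ℝ) ^ 2) := by
            gcongr
        _ = 8 * (Real.exp (-(z ^ 2 / 6 * (D : ℝ) ^ δ)) * (D : ℝ) ^ 3) := by ring
        _ ≤ 8 * (1 / 64) := by linarith
        _ = 1 / 8 := by norm_num
    have g7 : ((k + 1 : ℕ) : ℝ) * (1 / (D : ℝ) ^ 4) * (4 * (D : ℝ) ^ 2) ≤ 1 / 8 := by
      have h1 : ((k + 1 : ℕ) : ℝ) * (1 / (D : ℝ) ^ 4) * (4 * (D : ℝ) ^ 2) =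
          4 * ((k : ℝ) + 1) / (D : ℝ) ^ 2 := by
        push_cast
        field_simp
      rw [h1, div_le_iff₀ (by positivity)]
      nlinarith
    have g8 : 0 ≤ K * Real.exp (-(z ^ 2 * D / (3 * K))) + (k + 1 : ℕ) * (1 / (D : ℝ) ^ 4) := by
      positivity
    calc 4 * (K * Real.exp (-(z ^ 2 * D / (3 * K))) + (k + 1 : ℕ) * (1 / (D : ℝ) ^ 4)) *
        ((D + 1) ^ 2 : ℕ) ≤ 4 * (K * Real.exp (-(z ^ 2 * D / (3 * K))) +
          (k + 1 : ℕ) * (1 / (D : ℝ) ^ 4)) * (4 * (D : ℝ) ^ 2) :=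
          mul_le_mul_of_nonneg_left g1 (by linarith)
      _ = 4 * ((K : ℝ) * Real.exp (-(z ^ 2 * D / (3 * K))) * (4 * (D : ℝ) ^ 2) +
          ((k + 1 : ℕ) : ℝ) * (1 / (D : ℝ) ^ 4) * (4 * (D : ℝ) ^ 2)) := by ring
      _ ≤ 1 := by linarith
  obtain ⟨τ, S, hτ, hτ2, hS1, hS2, hS3⟩ := parts G (Lf k δ θ D) hL k t D N K C hk ht hD1 hK1 hdeg
    (fun φ hφ hφ2 => free_blow F G k t ht κ i₀ hκ hfree φ hφ hφ2) hnum (1 / (D : ℝ) ^ 4)
    (by positivity) hp z hz0.le (by linarith) h4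
  -- the graph of the parts
  set D' : ℕ := ⌊(1 + z) * D / K⌋₊ with hD'
  have hD'le : (D' : ℝ) ≤ (1 + z) * D / K := Nat.floor_le (by positivity)
  have hD'ge : (D : ℝ) ^ (δ * (1 - z)) ≤ D' := by
    have h1 : (1 + z) * D / K < D' + 1 := Nat.lt_floor_add_one _
    have h2 : (D : ℝ) ^ δ / 2 ≤ (1 + z) * D / K := by
      refine hDK.trans ?_
      rw [mul_div_assoc]
      have : 0 ≤ (D : ℝ) / K := by positivity
      nlinarith
    have h3 : (D : ℝ) ^ δ = (D : ℝ) ^ (δ * z) * (D : ℝ) ^ (δ * (1 - z)) := by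
      rw [← Real.rpow_add hDpos]; congr 1; ring
    have h4' : (D₀ : ℝ) + 3 ≤ (D : ℝ) ^ (δ * (1 - z)) := e4
    have h5 : (0 : ℝ) ≤ D₀ := by positivity
    have h6 : 4 * (D : ℝ) ^ (δ * (1 - z)) ≤ (D : ℝ) ^ δ := by
      rw [h3]
      exact mul_le_mul_of_nonneg_right e5 (by linarith)
    linarith
  have hD'D₀ : D₀ ≤ D' := by
    have h1 : (D₀ : ℝ) ≤ D' := by
      have h5 : (0 : ℝ) ≤ D₀ := by positivity
      linarith
    exact_mod_cast h1
  set G' : SimpleGraph V :=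
    { Adj := fun u v => G.Adj u v ∧ τ u = τ v
      symm := ⟨fun u v h => ⟨h.1.symm, h.2.symm⟩⟩
      loopless := ⟨fun v h => h.1.ne rfl⟩ } with hG'
  have hG'adj : ∀ u v, G'.Adj u v ↔ G.Adj u v ∧ τ u = τ v := fun u v => Iff.rfl
  obtain ⟨n, hn, f, hf1, hf2⟩ := hD₀ D' hD'D₀ V G' Set.univ S
    (by
      intro v
      refine le_trans ?_ (hτ2 v (τ v))
      rw [← SimpleGraph.card_neighborFinset_eq_degree]
      refine Finset.card_le_card (fun u hu => ?_)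
      rw [SimpleGraph.mem_neighborFinset, hG'adj] at hu
      rw [Finset.mem_filter, mem_Nb]
      exact ⟨hu.1, hu.2.symm⟩)
    hS1
    (fun v hv => (hS2 v v hv).1.ne rfl)
    (by
      intro v w hw
      have h1 := hS2 v w hw
      have h2 : G'.Adj v w := (hG'adj v w).2 ⟨h1.1, h1.2.symm⟩
      exact ⟨SimpleGraph.Walk.cons h2 SimpleGraph.Walk.nil, by simp⟩)
    (by
      rintro T' - ⟨φ, ⟨hφ1, hφ2⟩, hφT⟩
      have hmem : ∀ a, φ a ∈ T' := fun a => by rw [← hφT]; exact ⟨a, rfl⟩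
      have hadj : ∀ a b, a ≠ b → G.Adj (φ a) (φ b) ∧ τ (φ a) = τ (φ b) := fun a b hab =>
        (hG'adj _ _).1 (hφ2 a b hab)
      obtain ⟨u, hu, w, hw, hwu⟩ := hS3 (univ.image φ)
        ⟨by
          intro x hx y hy hxy
          rw [Finset.mem_coe, Finset.mem_image] at hx hy
          obtain ⟨a, -, rfl⟩ := hx
          obtain ⟨b, -, rfl⟩ := hy
          exact (hadj a b (fun h => hxy (by rw [h]))).1, by
          rw [Finset.card_image_of_injective _ hφ1]; simp⟩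
        (by
          intro x hx y hy
          rw [Finset.mem_image] at hx hy
          obtain ⟨a, -, rfl⟩ := hx
          obtain ⟨b, -, rfl⟩ := hy
          by_cases hab : a = b
          · rw [hab]
          · exact (hadj a b hab).2)
      obtain ⟨a, -, rfl⟩ := Finset.mem_image.1 hu
      obtain ⟨a', -, rfl⟩ := Finset.mem_image.1 hw
      exact ⟨φ a, hmem a, φ a', hmem a', hwu⟩)
  refine ⟨K * n, ?_, ?_⟩
  · have hcol : ∀ u v, G.Adj u v → ((⟨τ u, hτ u⟩, ⟨f u, hf1 u trivial⟩) : Fin K × Fin n) ≠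
        (⟨τ v, hτ v⟩, ⟨f v, hf1 v trivial⟩) := by
      intro u v huv h
      obtain ⟨h1, h2⟩ := Prod.mk.inj h
      have h3 : τ u = τ v := Fin.mk.inj_iff.1 h1
      have h4 : f u = f v := Fin.mk.inj_iff.1 h2
      exact hf2 u trivial v trivial ((hG'adj u v).2 ⟨huv, h3⟩) h4
    have hcard : Fintype.card (Fin K × Fin n) = K * n := by simp
    rw [← hcard]
    exact SimpleGraph.Coloring.colorable (SimpleGraph.Coloring.mk
      (fun v => ((⟨τ v, hτ v⟩, ⟨f v, hf1 v trivial⟩) : Fin K × Fin n))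
      (fun {u v} h => hcol u v h))
  · have hlogD : 0 < Real.log D := Real.log_pos (by linarith)
    have hD'1 : (1 : ℝ) < D' := by
      have h5 : (0 : ℝ) ≤ D₀ := by positivity
      linarith
    have hlog : (1 - z) * δ * Real.log D ≤ Real.log D' := by
      have h1 := Real.log_le_log (Real.rpow_pos_of_pos hDpos _) hD'ge
      rw [Real.log_rpow hDpos] at h1
      linarith
    have hlog0 : 0 < (1 - z) * δ * Real.log D := mul_pos (mul_pos (by linarith) hδ0) hlogD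
    have hKD' : (K : ℝ) * D' ≤ (1 + z) * D := by
      rw [le_div_iff₀ hKpos] at hD'le
      linarith
    have hcz : 0 ≤ c + z := by linarith
    have h1 : (K : ℝ) * n ≤ (c + z) * ((1 + z) * D / ((1 - z) * δ * Real.log D)) := by
      calc (K : ℝ) * n ≤ K * ((c + z) * ((D' : ℝ) / Real.log D')) :=
            mul_le_mul_of_nonneg_left hn hKpos.le
        _ = (c + z) * (((K : ℝ) * D') / Real.log D') := by ring
        _ ≤ (c + z) * (((1 + z) * D) / ((1 - z) * δ * Real.log D)) := by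
            refine mul_le_mul_of_nonneg_left ?_ hcz
            exact div_le_div₀ (by positivity) hKD' hlog0 hlog
    have h2 : (c + z) * ((1 + z) * D / ((1 - z) * δ * Real.log D)) =
        (c + z) * (1 + z) * B / ((1 - z) * (1 - z)) * (D / Real.log D) := by
      rw [hδ]
      have hz' : (1 - z) ≠ 0 := by linarith
      have hB' : B ≠ 0 := by linarith
      field_simp
    push_cast
    rw [h2] at h1
    refine h1.trans ?_
    exact mul_le_mul_of_nonneg_right hz2 (by positivity)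

end Pool.Agent.W837.Blow
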