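import Mathlib
import Pool.Agent.Helper311.Glue.Main
import Pool.Agent.H378R3.CountG

set_option autoImplicit false

/-!
# The constant of the triangle is at most one
-/

namespace Pool.Agent.W837.Blow

open Finset Filter Pool.Agent.Helper311.Glue Classical

theorem upTo_triangle : UpTo (⊤ : SimpleGraph (Fin 3)) 1 := by
  intro ε hε
  set ε' : ℝ := min (ε / 4) 1 with hε'
  have hε'0 : 0 < ε' := by rw [hε']; positivity
  have hε'1 : ε' ≤ 1 := min_le_right _ _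
  have hε'2 : ε' ≤ ε / 4 := min_le_left _ _
  obtain ⟨c, hc, Δ₀, h⟩ := Pool.Agent.H378R3.Col.q1form ε' (1 / 2) hε'0 (by norm_num) (by norm_num)
  have E1 : ∀ᶠ D : ℕ in atTop, 6 / ε ≤ (D : ℝ) / Real.log D :=
    tendsto_div_log.eventually_ge_atTop _
  have E2 : ∀ᶠ D : ℕ in atTop, 4 ≤ (D : ℝ) / Real.log D :=
    tendsto_div_log.eventually_ge_atTop _
  obtain ⟨D₂, hD₂⟩ := eventually_atTop.1 (E1.and E2)
  refine ⟨max (max D₂ Δ₀) 3, ?_⟩
  intro D hD V instV G inst hfree hmax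
  have hD3 : 3 ≤ D := (le_max_right _ _).trans hD
  have hDΔ : Δ₀ ≤ D := ((le_max_right _ _).trans (le_max_left _ _)).trans hD
  obtain ⟨e1, e2⟩ := hD₂ D (((le_max_left _ _).trans (le_max_left _ _)).trans hD)
  have hDr : (3 : ℝ) ≤ D := by exact_mod_cast hD3
  have hDpos : (0 : ℝ) < D := by linarith
  have hlog1 : 1 ≤ Real.log D := by
    rw [Real.le_log_iff_exp_le hDpos]
    exact le_trans Real.exp_one_lt_three.le hDr
  have hlog2 : Real.log D ≤ Real.log ((2 * D + 1 : ℕ) : ℝ) := by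
    refine Real.log_le_log hDpos ?_
    push_cast
    linarith
  set q : ℕ := ⌈(1 / 2 + ε') * ((2 * D + 1 : ℕ) : ℝ) / Real.log ((2 * D + 1 : ℕ) : ℝ)⌉₊ with hq
  have hq1 : (1 / 2 + ε') * ((2 * D + 1 : ℕ) : ℝ) / Real.log ((2 * D + 1 : ℕ) : ℝ) ≤ q :=
    Nat.le_ceil _
  have hfreeC : G.CliqueFree 3 := by
    intro S hS
    apply hfree
    have h1 : S.card = 3 := hS.card_eq
    obtain ⟨e⟩ : Nonempty (Fin 3 ≃ S) := by
      refine ⟨Fintype.equivOfCardEq ?_⟩
      rw [Fintype.card_coe, h1, Fintype.card_fin]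
    refine ⟨⟨⟨fun a => (e a : V), fun {a b} hab => ?_⟩, ?_⟩⟩
    · refine hS.isClique (e a).2 (e b).2 ?_
      intro h2
      exact (SimpleGraph.top_adj a b).1 hab (e.injective (Subtype.ext h2))
    · intro a b hab
      exact e.injective (Subtype.ext hab)
  have hemp : IsEmpty ({v | (((2 * D + 1 : ℕ) : ℝ)) / 2 ≤ G.degree v ∧ v ∉ (∅ : Finset V)} :
      Set V) := by
    refine ⟨fun v => ?_⟩
    have h1 := v.2.1
    have h2 : G.degree v.1 ≤ D := (G.degree_le_maxDegree v.1).trans hmax.le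
    have h3 : (G.degree v.1 : ℝ) ≤ D := by exact_mod_cast h2
    push_cast at h1
    linarith
  have hbound := h (2 * D + 1) (by omega) q hq1 V G hfreeC ∅ 0 (by simp) (by
    push_cast
    have : 0 ≤ Real.log (2 * (D : ℝ) + 1) := Real.log_nonneg (by linarith)
    positivity) ⟨SimpleGraph.Coloring.mk (fun v => (hemp.false v).elim)
      (fun {u v} _ => (hemp.false u).elim)⟩
  have hq2 : (D : ℝ) / Real.log D ≤ (1 / 2 + ε') * ((2 * D + 1 : ℕ) : ℝ) /
      Real.log ((2 * D + 1 : ℕ) : ℝ) * 2 := by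
    have h1 := mono_div_log hDr (b := ((2 * D + 1 : ℕ) : ℝ)) (by push_cast; linarith)
    have h2 : 0 ≤ ((2 * D + 1 : ℕ) : ℝ) / Real.log ((2 * D + 1 : ℕ) : ℝ) := by
      have : 0 ≤ Real.log ((2 * D + 1 : ℕ) : ℝ) := by linarith
      positivity
    calc (D : ℝ) / Real.log D ≤ ((2 * D + 1 : ℕ) : ℝ) / Real.log ((2 * D + 1 : ℕ) : ℝ) := h1
      _ ≤ (1 + 2 * ε') * (((2 * D + 1 : ℕ) : ℝ) / Real.log ((2 * D + 1 : ℕ) : ℝ)) := by
          nlinarith
      _ = _ := by ring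
  have hq3 : (2 : ℝ) ≤ q := by linarith
  have hpos : 0 < (1 - 1 / (q : ℝ)) ^ G.edgeFinset.card * ((1 - 1 / 2) * q) ^ Fintype.card V := by
    have h1 : 1 / (q : ℝ) < 1 := by
      rw [div_lt_one (by linarith)]; linarith
    have h2 : 0 < 1 - 1 / (q : ℝ) := by linarith
    have h3 : 0 < (1 - 1 / 2) * (q : ℝ) := by linarith
    positivity
  have hcard : 0 < Nat.card (G.Coloring (Fin q)) := by
    have h1 : (0 : ℝ) < (Nat.card (G.Coloring (Fin q)) : ℝ) := by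
      refine lt_of_lt_of_le hpos ?_
      convert hbound
    exact_mod_cast h1
  obtain ⟨C⟩ : Nonempty (G.Coloring (Fin q)) := by
    rw [Nat.card_pos_iff] at hcard
    exact hcard.1
  refine ⟨q, ⟨C⟩, ?_⟩
  have h1 : (q : ℝ) ≤ (1 / 2 + ε') * ((2 * D + 1 : ℕ) : ℝ) / Real.log ((2 * D + 1 : ℕ) : ℝ) + 1 := by
    refine (Nat.ceil_lt_add_one ?_).le
    have : 0 ≤ Real.log ((2 * D + 1 : ℕ) : ℝ) := by linarith
    positivity
  have h2 : (1 / 2 + ε') * ((2 * D + 1 : ℕ) : ℝ) / Real.log ((2 * D + 1 : ℕ) : ℝ) ≤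
      (1 / 2 + ε') * ((2 * D + 1 : ℕ) : ℝ) / Real.log D :=
    div_le_div_of_nonneg_left (by positivity) (by linarith) hlog2
  have h3 : (1 / 2 + ε') * ((2 * D + 1 : ℕ) : ℝ) / Real.log D =
      (1 + 2 * ε') * (D / Real.log D) + (1 / 2 + ε') / Real.log D := by
    push_cast; ring
  have h4 : (1 / 2 + ε') / Real.log D ≤ 3 / 2 := by
    rw [div_le_iff₀ (by linarith)]
    nlinarith
  have h5 : 6 ≤ ε * (D / Real.log D) := by
    rw [div_le_iff₀ hε] at e1
    linarith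
  have h6 : 0 ≤ (D : ℝ) / Real.log D := by linarith
  nlinarith

end Pool.Agent.W837.Blow
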